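import Pool.Agent.Y174.OB.O5

/-! Orbifold symmetric differentials: pairs with `κ ≤ 0`. -/

set_option autoImplicit false
set_option linter.overlappingInstances false
set_option linter.unusedSectionVars false
set_option maxHeartbeats 400000

open FF MvPolynomial IntermediateField Pool.Agent.W619.PQ Pool.Agent.W619.PL Pool.Agent.W619.TW
  Pool.Agent.W603.LV Pool.Agent.W619.Y Pool.Agent.Y174.T Pool.Agent.Y174.SD

namespace Pool.Agent.Y174.OB

section

variable {k K : Type} [Field k] [CharZero k] [Field K] [Algebra k K] {n m : ℕ}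

theorem eval_smul_hom {a : MvPolynomial (Fin n) K} (ha : a.IsHomogeneous m) (x : K)
    (g : Fin n → K) : eval (x • g) a = x ^ m * eval g a := by
  rw [eval_eq', eval_eq', Finset.mul_sum]
  refine Finset.sum_congr rfl fun e he => ?_
  have h1 : e.degree = m := by
    by_contra hne
    exact mem_support_iff.1 he (ha.coeff_eq_zero hne)
  have h2 : ∏ i, (x • g) i ^ e i = x ^ m * ∏ i, g i ^ e i := by
    simp only [Pi.smul_apply, smul_eq_mul, mul_pow]
    rw [Finset.prod_mul_distrib, Finset.prod_pow_eq_pow_sum, ← h1, Finsupp.degree_eq_sum]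
  rw [h2]
  ring

theorem sym_smul {a : MvPolynomial (Fin n) K} (ha : a.IsHomogeneous m) (y : Fin n → K) (x : K)
    (D : Derivation k K K) : sym y a (x • D) = x ^ m * sym y a D :=
  eval_smul_hom ha x fun c => D (y c)

/-- the values of an orbifold symmetric differential -/
theorem symOrb_val {δ0 : Place k K → ℝ} {a : MvPolynomial (Fin n) K} (ha : a.IsHomogeneous m)
    {y : Fin n → K} (h : SymOrb n δ0 (sym (k := k) y a)) {v : Place k K}
    (hv : IsDivisorial v n) (D : Derivation k K K) :
    (Pres v D → GeR v (-(m * δ0 v)) (sym y a D)) ∧ (Lg v D → GeR v 0 (sym y a D)) := by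
  have hK0 : CharZero K := charZero_of_injective_algebraMap (algebraMap k K).injective
  refine ⟨fun hD => ?_, fun hD => ?_⟩
  · obtain ⟨p, hp, hpc⟩ := h v hv D 0 hD (fun f => by
      rw [Derivation.zero_apply, zero_div]
      exact Or.inl rfl)
    have h1 : p = Polynomial.C (sym y a D) * Polynomial.X ^ m := by
      refine Polynomial.funext fun x => ?_
      rw [← hp x, add_zero, sym_smul ha, Polynomial.eval_mul, Polynomial.eval_C,
        Polynomial.eval_pow, Polynomial.eval_X, mul_comm]
    have h2 := hpc m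
    rw [h1, Polynomial.coeff_C_mul, Polynomial.coeff_X_pow, if_pos rfl, mul_one] at h2
    exact h2
  · obtain ⟨p, hp, hpc⟩ := h v hv 0 D (fun f _ => Or.inl rfl) hD
    have h1 : p = Polynomial.C (sym y a D) := by
      refine Polynomial.funext fun x => ?_
      rw [← hp x, smul_zero, zero_add, Polynomial.eval_C]
    have h2 := hpc 0
    rw [h1, Polynomial.coeff_C_zero, Nat.cast_zero, zero_mul, neg_zero] at h2
    exact h2

/-- **Main theorem** in the case `κ ≤ 0`. -/
theorem main0O (hISO : S_ISO) (hVAL : S_VAL) (hPIG : S_PIG) [IsAlgClosed k]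
    (hess : Algebra.EssFiniteType k K)
    (hn : Algebra.trdeg k K = n) (hm : 1 ≤ m)
    {δ0 δ : Place k K → ℝ} (hO : IsOrb δ0) (hle : ∀ v, δ0 v ≤ δ v)
    (hκ : ¬ PairKod k K n δ 1) (y : Fin n → K) (hy : IsTranscendenceBasis k y)
    (a : Fin n → MvPolynomial (Fin n) K) (ha : ∀ j, (a j).IsHomogeneous m)
    (hreg : ∀ j, SymOrb n δ0 (sym (k := k) y (a j))) {N : ℕ}
    (hN : ∀ β : Fin n →₀ ℕ, β.degree = N → monomial β 1 ∈ Ideal.span (Set.range a)) :
    ∃ L : IntermediateField K (AlgebraicClosure K), FiniteDimensional K L ∧ IsGalois K L ∧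
      (∃ (ω : Fin n → (Derivation k K K →ₗ[K] L)), LinearIndependent L ω ∧
        ∀ i, OrbForm n δ0 (ω i)) ∧
      (∃ (η : Fin n → (Derivation k L L →ₗ[L] L)), LinearIndependent L η ∧
        ∀ i, ∀ w : Place k L, IsDivisorial w n → ∀ D : Derivation k L L,
          LogFld (BdOn fun v => δ0 v = 1) w D → w.Reg (η i D)) ∧
      PairKod k K n δ 0 ∧ ∀ δ' : Place k L → ℝ, IsPull δ δ' →
        (∀ a, PairKod k K n δ a ↔ PairKod k L n δ' a) ∧
        ∀ a, PairNum k L n δ' a → PairNum k K n δ a := by
  classical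
  have hK0 : CharZero K := charZero_of_injective_algebraMap (algebraMap k K).injective
  obtain ⟨E, hE⟩ := Pool.Agent.W636.PG.exists_duals k K n y hy
  have hexp := fun D : Derivation k K K => Pool.Agent.W73.PG.PULL.expand y hy E hE D
  rcases Nat.eq_zero_or_pos n with hn0 | hn1
  · subst hn0
    obtain ⟨L, h1, h2, -, h3⟩ := main_O2 (Ω := AlgebraicClosure K) hPIG hess hn δ0 δ hO hle
      (ι := Fin 0) (fun i => i.elim0) (fun L _ _ i => i.elim0)
      (fun D _ => by rw [← hexp D]; simp)
    exact ⟨L, h1, h2, ⟨fun i => i.elim0, linearIndependent_empty_type, fun i => i.elim0⟩, h3⟩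
  have hr := ratio_O hISO Pool.Agent.Y301.SD.t_DENS hess hn hm hle hκ y hy a ha hreg
  obtain ⟨h, hh, hc⟩ := isotrivial Pool.Agent.Y212.SD.t_INT Pool.Agent.Y888.SD.t_MIN
    (Pool.Agent.Y638.SD.t_GCD Pool.Agent.Y108.SD.t_CHAR) Pool.Agent.Y638.SD.t_CRAMER
    Pool.Agent.Y710.SD.t_POLE (Pool.Agent.Y761.SD.t_CONST Pool.Agent.Y664.SD.t_POINT)
    hn1 hm y hy a ha hN hr
  choose c hc using hc
  have hchom : ∀ j, (c j).IsHomogeneous m := by
    intro j
    have h1 : (map (algebraMap k (AlgebraicClosure K)) (c j)).IsHomogeneous m := by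
      rw [← hc j]
      exact lsub_hom h.transpose ((ha j).map _)
    intro d hd
    refine h1 (d := d) ?_
    rw [coeff_map]
    exact (map_ne_zero_iff _ (algebraMap k (AlgebraicClosure K)).injective).2 hd
  have hNc := noZero_const hN hh hc
  have hreg2 : ∀ (L : IntermediateField K (AlgebraicClosure K)) (_ : FiniteDimensional K L)
      (_ : ∀ i (D : Derivation k K K), rform y h i D ∈ L) (i : Fin n) (v : Place k K) (w : Place k L) (e : ℕ),
      IsDivisorial v n → Over w v e → ∀ (D : Derivation k K K) (z : L),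
      (z : AlgebraicClosure K) = rform y h i D →
        (Pres v D → GeR w (-(e * δ0 v)) z) ∧ (Lg v D → GeR w 0 z) := by
    intro L hL hmem i v w e hv hwv D z hz
    -- the values
    have t1 : IsScalarTower k L (AlgebraicClosure K) := IsScalarTower.of_algebraMap_eq fun x => by
      rw [IsScalarTower.algebraMap_apply k K L, ← IsScalarTower.algebraMap_apply K L,
        ← IsScalarTower.algebraMap_apply k K]
    let ζ : Fin n → L := fun i => ⟨rform y h i D, hmem i D⟩
    have hzi : z = ζ i := Subtype.ext hz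
    have hval : ∀ j, aeval ζ (c j) = algebraMap K L (sym y (a j) D) := by
      intro j
      apply Subtype.ext
      have h0 : ((aeval ζ (c j) : L) : AlgebraicClosure K) =
          aeval (fun i => rform y h i D) (c j) := by
        have h1 := MvPolynomial.comp_aeval_apply (f := ζ)
          ((IsScalarTower.toAlgHom k L (AlgebraicClosure K))) (c j)
        exact h1
      rw [h0]
      have h1 : h.mulVec (fun i => rform y h i D) =
          fun b => algebraMap K (AlgebraicClosure K) (D (y b)) := by
        have h2 : (fun i => rform y h i D) =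
            (h⁻¹).mulVec (fun b => algebraMap K (AlgebraicClosure K) (D (y b))) := rfl
        rw [h2, Matrix.mulVec_mulVec, Matrix.mul_nonsing_inv _ (isUnit_iff_ne_zero.2 hh),
          Matrix.one_mulVec]
      have h3 := congrArg (eval (fun i => rform y h i D)) (hc j)
      rw [eval_map] at h3
      change eval (fun i => rform y h i D) (aeval (fun l => ∑ p, C (h l p) * X p)
        (map (algebraMap K (AlgebraicClosure K)) (a j))) = aeval (fun i => rform y h i D) (c j) at h3
      rw [← h3, Pool.Agent.Y174.eval_aeval, eval_map]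
      have h4 : (fun l => eval (fun i => rform y h i D) (∑ p, C (h l p) * X p)) =
          fun b => algebraMap K (AlgebraicClosure K) (D (y b)) := by
        rw [← h1]
        funext l
        rw [map_sum]
        refine Finset.sum_congr rfl fun p _ => ?_
        rw [map_mul, eval_C, eval_X]
      rw [h4]
      exact (eval₂_comp_left (algebraMap K (AlgebraicClosure K)) (RingHom.id K)
        (fun b => D (y b)) (a j)).symm
    rw [hzi]
    refine ⟨fun hD => ?_, fun hD => ?_⟩
    · refine hVAL k L n m N w (e * δ0 v) c ζ hm hchom hNc (fun j => ?_) i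
      rw [hval]
      refine (((symOrb_val (ha j) (hreg j) hv D).1 hD).up hwv).mono (le_of_eq ?_)
      ring
    · have h5 := hVAL k L n m N w 0 c ζ hm hchom hNc (fun j => by
        rw [hval]
        refine (((symOrb_val (ha j) (hreg j) hv D).2 hD).up hwv).mono (le_of_eq ?_)
        ring) i
      rw [neg_zero] at h5
      exact h5
  have hker2 : ∀ D : Derivation k K K, (∀ i, rform y h i D = 0) → D = 0 := by
    intro D hD
    have h1 : (h⁻¹).mulVec (fun b => algebraMap K (AlgebraicClosure K) (D (y b))) = 0 := by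
      funext i
      exact hD i
    have h2 : (fun b => algebraMap K (AlgebraicClosure K) (D (y b))) = 0 := by
      have h3 := congrArg (h.mulVec) h1
      rw [Matrix.mulVec_mulVec, Matrix.mul_nonsing_inv _ (isUnit_iff_ne_zero.2 hh),
        Matrix.one_mulVec, Matrix.mulVec_zero] at h3
      exact h3
    rw [← hexp D]
    refine Finset.sum_eq_zero fun b _ => ?_
    have h3 : D (y b) = 0 :=
      (map_eq_zero_iff _ (algebraMap K (AlgebraicClosure K)).injective).1 (congrFun h2 b)
    rw [h3, zero_smul]
  obtain ⟨L, hfd, hgal, hmem, h3⟩ := main_O2 (Ω := AlgebraicClosure K) hPIG hess hn δ0 δ hO hle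
    (ι := Fin n) (fun i => rform y h i) hreg2 hker2
  · let ω : Fin n → (Derivation k K K →ₗ[K] L) := fun i =>
      { toFun := fun D => ⟨rform y h i D, hmem i D⟩
        map_add' := fun D D' => Subtype.ext (map_add (rform y h i) D D')
        map_smul' := fun c D => Subtype.ext (map_smul (rform y h i) c D) }
    refine ⟨L, hfd, hgal, ⟨ω, ?_, fun i v w e hv hwv D => ?_⟩, h3⟩
    · rw [Fintype.linearIndependent_iff]
      intro c hc
      have h4 : Matrix.vecMul (fun i => (c i : AlgebraicClosure K)) h⁻¹ = 0 := by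
        funext j
        have h5 := congrArg (Subtype.val : L → AlgebraicClosure K) (LinearMap.congr_fun hc (E j))
        rw [LinearMap.sum_apply, LinearMap.zero_apply] at h5
        have h6 : ∀ i, (((c i • ω i) (E j) : L) : AlgebraicClosure K) =
            (c i : AlgebraicClosure K) * h⁻¹ i j := by
          intro i
          change (c i : AlgebraicClosure K) * rform y h i (E j) = _
          congr 1
          change ∑ l, h⁻¹ i l * algebraMap K (AlgebraicClosure K) (E j (y l)) = _
          rw [Finset.sum_eq_single j]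
          · rw [hE, if_pos rfl, map_one, mul_one]
          · intro b _ hb
            rw [hE, if_neg (Ne.symm hb), map_zero, mul_zero]
          · intro hi
            exact absurd (Finset.mem_univ j) hi
        change ∑ i, (c i : AlgebraicClosure K) * h⁻¹ i j = 0
        rw [← Finset.sum_congr rfl fun i _ => h6 i]
        have h7 : ((∑ i, (c i • ω i) (E j) : L) : AlgebraicClosure K) = 0 := h5
        rw [← h7]
        exact (map_sum (algebraMap L (AlgebraicClosure K)) (fun i => (c i • ω i) (E j))
          Finset.univ).symm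
      have hinv : (h⁻¹).det ≠ 0 := by
        rw [Matrix.det_nonsing_inv, Ring.inverse_eq_inv']
        exact inv_ne_zero hh
      intro i
      by_contra hne
      exact hinv (Matrix.exists_vecMul_eq_zero_iff.1
        ⟨_, fun h0 => hne (Subtype.ext (congrFun h0 i)), h4⟩)
    · have h5 := hreg2 L hfd hmem i v w e hv hwv D (ω i D) rfl
      exact ⟨fun hD => h5.1 hD, fun hD => GeR.toInt (by simpa using h5.2 hD)⟩

/-- The forms in coordinates. -/
def NoZCO (m : ℕ) (δ0 : Place k K → ℝ) (y : Fin n → K) : Prop :=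
  ∃ (M : ℕ) (H : Fin M → MvPolynomial (Fin n) K) (N : ℕ), (∀ j, (H j).IsHomogeneous m) ∧
    (∀ j, SymOrb n δ0 (sym (k := k) y (H j))) ∧
    ∀ β : Fin n →₀ ℕ, β.degree = N → monomial β 1 ∈ Ideal.span (Set.range H)

theorem noZCO_of {δ0 : Place k K → ℝ} {y : Fin n → K}
    (hy : IsTranscendenceBasis k y) (h : NoZeroOrb k K n m δ0) : NoZCO m δ0 y := by
  classical
  have hK0 : CharZero K := charZero_of_injective_algebraMap (algebraMap k K).injective
  obtain ⟨E, hE⟩ := Pool.Agent.W636.PG.exists_duals k K n y hy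
  obtain ⟨M, H, N, hH, hN⟩ := null (K := K) (L := AlgebraicClosure K)
    {p | p.IsHomogeneous m ∧ SymOrb n δ0 (sym (k := k) y p)} (by
      intro c hc
      obtain ⟨s, p, hs, hlog, hp, hpc⟩ := h E (li_duals hE) c hc
      obtain ⟨q, hq, hqe⟩ := hs n E
      have hqp : q = p := by
        refine MvPolynomial.funext fun a => ?_
        rw [← hqe, hp]
      subst hqp
      refine ⟨q, ⟨hq, ?_⟩, hpc⟩
      have hsq : s = sym y q := by
        funext D
        have h3 := hqe fun c => D (y c)
        rw [Pool.Agent.W73.PG.PULL.expand y hy E hE D] at h3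
        exact h3
      rw [← hsq]
      exact hlog)
  exact ⟨M, H, N, fun j => (hH j).1, fun j => (hH j).2, hN⟩

/-- linear combinations with constant coefficients of orbifold symmetric differentials -/
theorem symOrb_sum {δ0 : Place k K → ℝ} {y : Fin n → K} {M : ℕ}
    {H : Fin M → MvPolynomial (Fin n) K} (h : ∀ j, SymOrb n δ0 (sym (k := k) y (H j)))
    (z : Fin M → k) :
    SymOrb n δ0 (sym (k := k) y (∑ j, C (algebraMap k K (z j)) * H j)) := by
  intro v hv D E hD hE
  choose p hp hpc using fun j => h j v hv D E hD hE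
  refine ⟨∑ j, Polynomial.C (algebraMap k K (z j)) * p j, fun x => ?_, fun i => ?_⟩
  · unfold sym
    rw [map_sum, Polynomial.eval_finsetSum]
    refine Finset.sum_congr rfl fun j _ => ?_
    rw [map_mul, eval_C, Polynomial.eval_mul, Polynomial.eval_C, ← hp j x]
    rfl
  · have h1 : GeR v (-(i * δ0 v)) ((∑ j, Polynomial.C (algebraMap k K (z j)) * p j).coeff i) := by
      rw [Polynomial.finsetSum_coeff]
      refine GeR.sum _ _ _ fun j _ => ?_
      rw [Polynomial.coeff_C_mul]
      have h2 : Ge v 0 (algebraMap k K (z j)) := reg_const (z j)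
      have h3 := (Ge.toR h2).mul (hpc j i : GeR v (-(i * δ0 v)) ((p j).coeff i))
      simpa using h3
    exact h1

/-- `n` forms. -/
theorem exists_systemO (hm : 1 ≤ m) {δ0 : Place k K → ℝ} {y : Fin n → K} (h : NoZCO m δ0 y) :
    ∃ (a : Fin n → MvPolynomial (Fin n) K) (N : ℕ), (∀ j, (a j).IsHomogeneous m) ∧
      (∀ j, SymOrb n δ0 (sym (k := k) y (a j))) ∧
      ∀ β : Fin n →₀ ℕ, β.degree = N → monomial β 1 ∈ Ideal.span (Set.range a) := by
  classical
  obtain ⟨M, H, N, hH, hreg, hN⟩ := h
  obtain ⟨z, N1, hz⟩ := Pool.Agent.Y212.SD.t_GP k K n M m N hm H hH hN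
  refine ⟨_, N1, fun i => ?_, fun i => symOrb_sum hreg (z i), hz⟩
  refine IsHomogeneous.sum _ _ _ fun j _ => ?_
  have h1 := (isHomogeneous_C (Fin n) (algebraMap k K (z i j))).mul (hH j)
  rw [zero_add] at h1
  exact h1

/-- **Main theorem**, `κ ≤ 0`, without coordinates. -/
theorem main1O (hISO : S_ISO) (hVAL : S_VAL) (hPIG : S_PIG) [IsAlgClosed k]
    (hess : Algebra.EssFiniteType k K)
    (hn : Algebra.trdeg k K = n) (hm : 1 ≤ m)
    {δ0 δ : Place k K → ℝ} (hO : IsOrb δ0) (hle : ∀ v, δ0 v ≤ δ v)
    (hκ : ¬ PairKod k K n δ 1) (h : NoZeroOrb k K n m δ0) :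
    ∃ M : IntermediateField K (AlgebraicClosure K), FiniteDimensional K M ∧ IsGalois K M ∧
      (∃ (ω : Fin n → (Derivation k K K →ₗ[K] M)), LinearIndependent M ω ∧
        ∀ i, OrbForm n δ0 (ω i)) ∧
      (∃ (η : Fin n → (Derivation k M M →ₗ[M] M)), LinearIndependent M η ∧
        ∀ i, ∀ w : Place k M, IsDivisorial w n → ∀ D : Derivation k M M,
          LogFld (BdOn fun v => δ0 v = 1) w D → w.Reg (η i D)) ∧
      PairKod k K n δ 0 ∧ ∀ δ' : Place k M → ℝ, IsPull δ δ' →
        (∀ a, PairKod k K n δ a ↔ PairKod k M n δ' a) ∧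
        ∀ a, PairNum k M n δ' a → PairNum k K n δ a := by
  obtain ⟨y, hy⟩ := Pool.Agent.W636.PG.exists_basis k K n hn
  obtain ⟨a, N, ha, hreg, hN⟩ := exists_systemO hm (noZCO_of hy h)
  exact main0O hISO hVAL hPIG hess hn hm hO hle hκ y hy a ha hreg hN

end

end Pool.Agent.Y174.OB
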