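import Pool.Agent.Y174.SD.G10
import Pool.Agent.Y174.W4

/-! Project OB (helper174): orbifold symmetric differentials. Definitions and the statements of
independent parts (propositions `S_...`). -/

set_option autoImplicit false
set_option linter.overlappingInstances false
set_option linter.unusedSectionVars false

open FF MvPolynomial IntermediateField Pool.Agent.W619.PQ Pool.Agent.W619.PL Pool.Agent.W619.TW
  Pool.Agent.W603.LV Pool.Agent.W619.Y Pool.Agent.Y174.T

namespace Pool.Agent.Y174.OB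

/-- OB1: bounds for the values of forms without common zeros give bounds for the variables. -/
def S_VAL : Prop := ∀ (k L : Type) [Field k] [Field L] [Algebra k L] (n m N : ℕ)
  (w : Place k L) (θ : ℝ) (c : Fin n → MvPolynomial (Fin n) k) (ζ : Fin n → L) (_ : 1 ≤ m)
  (_ : ∀ j, (c j).IsHomogeneous m)
  (_ : ∀ β : Fin n →₀ ℕ, β.degree = N → monomial β 1 ∈ Ideal.span (Set.range c))
  (_ : ∀ j, GeR w (-(m * θ)) (aeval ζ (c j))) (i : Fin n), GeR w (-θ) (ζ i)

/-- OB2: semi-invariants of weight `W` are isobaric of weight `W` in each variable. -/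
def S_ISO : Prop := ∀ (k K : Type) [Field k] [Infinite k] [Field K] [Algebra k K] (n m W : ℕ)
  (v : Place k K) (i0 : Fin n) (θ : ℝ) (Q : SD.Cf k n m) (_ : SD.SemiInv Q W)
  (x : Fin n × Ex n m → K) (_ : ∀ p, GeR v (-(p.2.1 i0 * θ)) (x p)),
  GeR v (-(W * θ)) (aeval x Q)

/-- OB3: in an inertia group of order `q * l`, `2 ≤ l`, there is an element which fixes the leading
coefficient of some `y` of order `q * l - l`. -/
def S_PIG : Prop := ∀ (k L : Type) [Field k] [IsAlgClosed k] [CharZero k] [Field L] [Algebra k L]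
  (G : Subgroup (L ≃ₐ[k] L)) [Finite G] (v : Place k (fixedField G)) (w : Place k L)
  (e q l : ℕ) (_ : Over w v e) (_ : e = q * l) (_ : 1 ≤ q) (_ : 2 ≤ l)
  (I : Subgroup G) (_ : Nat.card I = e) (_ : ∀ g ∈ I, Inert w (g : L ≃ₐ[k] L)),
  ∃ g ∈ I, g ≠ 1 ∧ ∃ y : L, y ≠ 0 ∧ w.ord y = (e : ℤ) - l ∧
    Ge w ((e : ℤ) - l + 1) ((g : L ≃ₐ[k] L) y - y)

/-- OB4: the numerical dimension of the total space of a fibration, with a boundary which is bounded
by finitely many functions. -/
def S_EASY : Prop := ∀ (k L K Λ F : Type) [Field k] [CharZero k] [Field L] [Field K] [Field Λ]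
  [Field F] [Algebra k L] [Algebra k K] [Algebra L K] [IsScalarTower k L K] [Algebra L Λ]
  [Algebra Λ F] [Algebra K F] [Algebra L F] [IsScalarTower L Λ F] [IsScalarTower L K F]
  [Algebra k Λ] [Algebra k F] [IsScalarTower k Λ F] [IsScalarTower k K F]
  [IsScalarTower k L Λ] (_ : Algebra.EssFiniteType k L) (_ : Algebra.EssFiniteType k K)
  [Algebra.IsAlgebraic L Λ]
  (_ : IntermediateField.adjoin Λ (Set.range (algebraMap K F)) = ⊤)
  (_ : ∀ x : K, IsIntegral L x → ∃ y : L, algebraMap L K y = x)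
  (d r : ℕ) (_ : Algebra.trdeg k L = d) (_ : Algebra.trdeg k K = (d + (r + 1) : ℕ)) (h : ℕ)
  (δ : Place k K → ℝ) (δ' : Place Λ F → ℝ) (_ : IsPullFib δ δ') (G : Finset K)
  (_ : ∀ v : Place k K, IsDivisorial v (d + (r + 1)) → ∃ g ∈ G, g ≠ 0 ∧ δ v ≤ (v.ord g : ℝ))
  (_ : PairNum Λ F (r + 1) δ' h),
  PairNum k K (d + (r + 1)) δ (d + h)

end Pool.Agent.Y174.OB
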