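import Pool.Agent.Y174.OB.Defs
import Pool.Agent.Y174.OB.Stm

/-! Project OB (helper174): the converse. -/

set_option autoImplicit false
set_option linter.overlappingInstances false
set_option linter.unusedSectionVars false

open FF IntermediateField Pool.Agent.W619.PQ Pool.Agent.W619.PL Pool.Agent.W619.TW
  Pool.Agent.W603.LV Pool.Agent.W619.Y

namespace Pool.Agent.Y174.OB

/-- OB5: the norms of multivalued orbifold 1-forms are orbifold symmetric differentials without
common zeros. -/
def S_CONV : Prop := ∀ (k K : Type) [Field k] [CharZero k] [IsAlgClosed k] [Field K] [Algebra k K]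
  (_ : Algebra.EssFiniteType k K) (n : ℕ) (_ : Algebra.trdeg k K = n)
  (M : IntermediateField K (AlgebraicClosure K)) [FiniteDimensional K M] [IsGalois K M]
  (δ : Place k K → ℝ) (ω : Fin n → (Derivation k K K →ₗ[K] M)) (_ : LinearIndependent M ω)
  (_ : ∀ i, OrbForm n δ (ω i)), NoZeroOrb k K n (Module.finrank K M) δ

end Pool.Agent.Y174.OB
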