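import Pool.Agent.Y174.OB.O10
import Pool.Agent.Y391.OB.Conv

/-! Orbifold symmetric differentials: the characterization. -/

set_option autoImplicit false
set_option linter.overlappingInstances false
set_option linter.unusedSectionVars false
set_option maxHeartbeats 400000

open FF MvPolynomial Pool.Agent.W619.PQ Pool.Agent.W619.PL Pool.Agent.W619.TW
  Pool.Agent.W603.LV Pool.Agent.W619.Y Pool.Agent.W824.PG Pool.Agent.Y174.T Pool.Agent.Y174.SD

namespace Pool.Agent.Y174.OB

section

variable {k K : Type} [Field k] [CharZero k] [Field K] [Algebra k K] {n : ℕ}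

/-- multivalued orbifold 1-forms give symmetric differentials without common zeros -/
theorem noBase_of_forms [IsAlgClosed k] (hess : Algebra.EssFiniteType k K)
    (hn : Algebra.trdeg k K = n) {δ0 : Place k K → ℝ}
    (h : ∃ M : IntermediateField K (AlgebraicClosure K), FiniteDimensional K M ∧ IsGalois K M ∧
      ∃ ω : Fin n → (Derivation k K K →ₗ[K] M), LinearIndependent M ω ∧
        ∀ i, OrbForm n δ0 (ω i)) : NoBaseOrb k K n δ0 := by
  obtain ⟨M, h1, h2, ω, hω, ho⟩ := h
  exact noBase_of_noZero Module.finrank_pos
    (Pool.Agent.Y391.OB.t_CONV k K hess n hn M δ0 ω hω ho)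

end

end Pool.Agent.Y174.OB
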