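import Pool.Agent.Y174.SD.Defs

/-! Orbifold symmetric differentials: definitions. -/

set_option autoImplicit false
set_option linter.overlappingInstances false
set_option linter.unusedSectionVars false

universe u v

open FF Pool.Agent.W619.PQ Pool.Agent.W619.TW

namespace Pool.Agent.Y174

section

variable {k : Type v} {K : Type u} [Field k] [Field K] [Algebra k K]

/-- The divisor with the multiplicities `δ v` is an orbifold divisor (in the sense of Campana): all
its multiplicities are `1` or of the form `1 - 1 / q` with a positive integer `q`. -/
def IsOrb (δ : Place k K → ℝ) : Prop := ∀ v, δ v = 1 ∨ ∃ q : ℕ, 1 ≤ q ∧ δ v = 1 - 1 / q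

/-- The symmetric differential `s` on the variety of dimension `n` is a symmetric differential of the
orbifold with the multiplicities `δ v`: along each prime divisor `v` over the variety, if the vector
field `D` is regular along `v` and the vector field `E` is regular and tangent to `v`, then the
coefficient of `x ^ i` in the polynomial `s (x D + E)` has order at least `- i δ v` along `v`. -/
def SymOrb (n : ℕ) (δ : Place k K → ℝ) (s : Derivation k K K → K) : Prop :=
  ∀ v : Place k K, IsDivisorial v n → ∀ D E : Derivation k K K, (∀ f, v.Reg f → v.Reg (D f)) →
    (∀ f, v.Reg (E f / f)) → ∃ p : Polynomial K, (∀ x : K, s (x • D + E) = p.eval x) ∧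
      ∀ i, p.coeff i = 0 ∨ -(i * δ v) ≤ (v.ord (p.coeff i) : ℝ)

/-- The multivalued 1-form `ω` on the variety of dimension `n`, with values in a finite extension `M`
of `K`, is a 1-form of the orbifold with the multiplicities `δ v`: if the prime divisor `w` over the
cover lies over the prime divisor `v` over the variety with ramification index `e`, then the values of
`ω` on the vector fields regular along `v` have order at least `- e δ v` along `w`, and on those which
are tangent to `v` they are regular. -/
def OrbForm {M : Type u} [Field M] [Algebra k M] [Algebra K M] (n : ℕ) (δ : Place k K → ℝ)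
    (ω : Derivation k K K →ₗ[K] M) : Prop :=
  ∀ (v : Place k K) (w : Place k M) (e : ℕ), IsDivisorial v n → LiesOn w v e →
    ∀ D : Derivation k K K,
      ((∀ f, v.Reg f → v.Reg (D f)) → ω D = 0 ∨ -(e * δ v) ≤ (w.ord (ω D) : ℝ)) ∧
      ((∀ f, v.Reg (D f / f)) → w.Reg (ω D))

variable (k K)

/-- The symmetric differentials of degree `m` of the orbifold with the multiplicities `δ v` on the
variety of dimension `n` with function field `K` have no common zeros at the (geometric) generic point:
let `E 0, ..., E (n - 1)` be linearly independent rational vector fields, and `c i`, not all zero, in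
the algebraic closure of `K`; then there is a symmetric differential `s` of degree `m` of the orbifold
with `s (∑ i, c i • E i) ≠ 0`, where `s (∑ i, a i • E i)` is the polynomial `p` in the `a i`. -/
def NoZeroOrb (n m : ℕ) (δ : Place k K → ℝ) : Prop :=
  ∀ E : Fin n → Derivation k K K, LinearIndependent K E →
    ∀ c : Fin n → AlgebraicClosure K, c ≠ 0 →
      ∃ (s : Derivation k K K → K) (p : MvPolynomial (Fin n) K), IsSymDiff m s ∧ SymOrb n δ s ∧
        (∀ a : Fin n → K, s (∑ i, a i • E i) = MvPolynomial.eval a p) ∧
        MvPolynomial.aeval c p ≠ 0

end

end Pool.Agent.Y174
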