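import Pool.Agent.Y174.OB.Defs

/-! Orbifold symmetric differentials: the stable base locus. Definition. -/

set_option autoImplicit false
set_option linter.overlappingInstances false
set_option linter.unusedSectionVars false

universe u v

open FF Pool.Agent.W619.PQ Pool.Agent.W619.TW

namespace Pool.Agent.Y174

section

variable (k : Type v) (K : Type u) [Field k] [Field K] [Algebra k K]

/-- The symmetric differentials of positive degrees of the orbifold with the multiplicities `δ v` on
the variety of dimension `n` with function field `K` have no common zeros at the (geometric) generic
point: let `E 0, ..., E (n - 1)` be linearly independent rational vector fields, and `c i`, not all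
zero, in the algebraic closure of `K`; then there is a symmetric differential `s` of the orbifold, of
some degree `m ≥ 1`, with `s (∑ i, c i • E i) ≠ 0`, where `s (∑ i, a i • E i)` is the polynomial `p`
in the `a i`. In other words, the stable base locus of the tautological line bundle on the
projectivized tangent bundle of the orbifold does not dominate the variety. -/
def NoBaseOrb (n : ℕ) (δ : Place k K → ℝ) : Prop :=
  ∀ E : Fin n → Derivation k K K, LinearIndependent K E →
    ∀ c : Fin n → AlgebraicClosure K, c ≠ 0 →
      ∃ (m : ℕ) (s : Derivation k K K → K) (p : MvPolynomial (Fin n) K), 1 ≤ m ∧
        IsSymDiff m s ∧ SymOrb n δ s ∧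
        (∀ a : Fin n → K, s (∑ i, a i • E i) = MvPolynomial.eval a p) ∧
        MvPolynomial.aeval c p ≠ 0

end

end Pool.Agent.Y174
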