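import Pool.Agent.Y174.OB.Stm

/-! Project OB: semi-invariants are isobaric. -/

set_option autoImplicit false
set_option linter.overlappingInstances false
set_option linter.unusedSectionVars false
set_option maxHeartbeats 400000

open FF MvPolynomial IntermediateField Pool.Agent.W619.PQ Pool.Agent.W619.PL Pool.Agent.W619.TW
  Pool.Agent.W603.LV Pool.Agent.W619.Y Pool.Agent.Y174.T Pool.Agent.Y174.SD

namespace Pool.Agent.Y174.OB

section

theorem aeval_scale {σ k : Type*} [Fintype σ] [CommRing k] (c : σ → k)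
    (Q : MvPolynomial σ k) (μ : σ →₀ ℕ) :
    coeff μ (aeval (fun p => (C (c p) * X p : MvPolynomial σ k)) Q) =
      (∏ p, c p ^ μ p) * coeff μ Q := by
  classical
  have h1 : ∀ (ν : σ →₀ ℕ) (a : k), aeval (fun p => (C (c p) * X p : MvPolynomial σ k))
      (monomial ν a) = monomial ν ((∏ p, c p ^ ν p) * a) := by
    intro ν a
    rw [aeval_monomial, Finsupp.prod_fintype _ _ (fun i => pow_zero _)]
    simp only [mul_pow]
    rw [Finset.prod_mul_distrib, algebraMap_eq]
    have h2 : (∏ p, (C (c p) : MvPolynomial σ k) ^ ν p) = C (∏ p, c p ^ ν p) := by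
      rw [map_prod]
      exact Finset.prod_congr rfl fun p _ => (map_pow _ _ _).symm
    have h3 : (∏ p, (X p : MvPolynomial σ k) ^ ν p) = monomial ν 1 := by
      rw [monomial_eq, C_1, one_mul, Finsupp.prod_fintype _ _ (fun i => pow_zero _)]
    rw [h2, h3, ← mul_assoc, ← C_mul, C_mul_monomial, mul_one, mul_comm]
  conv_lhs => rw [← support_sum_monomial_coeff Q]
  rw [map_sum, coeff_sum]
  simp only [h1, coeff_monomial]
  rw [Finset.sum_ite_eq']
  split_ifs with h
  · rfl
  · rw [notMem_support_iff.1 h, mul_zero]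

theorem trans_diag {k : Type*} [Field k] {n m : ℕ} (d : Fin n → k) (p : Fin n × Ex n m) :
    SD.trans ((Matrix.diagonal d).map C) (fun p => (X p : SD.Cf k n m)) p =
      C (∏ c, d c ^ p.2.1 c) * X p := by
  classical
  unfold SD.trans
  have h1 : ∀ q : MvPolynomial (Fin n) (SD.Cf k n m), SD.lsub ((Matrix.diagonal d).map C) q =
      aeval (fun c => (C (C (d c)) * X c : MvPolynomial (Fin n) (SD.Cf k n m))) q := by
    intro q
    unfold SD.lsub
    congr 2
    funext c
    rw [Finset.sum_eq_single c]
    · rw [Matrix.map_apply, Matrix.diagonal_apply_eq]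
    · intro i _ hi
      rw [Matrix.map_apply, Matrix.diagonal_apply_ne _ hi, C_0, C_0, zero_mul]
    · intro h
      exact absurd (Finset.mem_univ c) h
  rw [h1, aeval_scale, SD.coeff_fm]
  congr 1
  rw [map_prod]
  exact Finset.prod_congr rfl fun c _ => (map_pow _ _ _).symm

/-- the weight -/
theorem weight {k : Type*} [Field k] [Infinite k] {n m W : ℕ} (i0 : Fin n) {Q : SD.Cf k n m}
    (hQ : SD.SemiInv Q W) {μ : Fin n × Ex n m →₀ ℕ} (hμ : μ ∈ Q.support) :
    ∑ p, μ p * p.2.1 i0 = W := by
  classical
  have hμ0 : coeff μ Q ≠ 0 := mem_support_iff.1 hμ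
  have key : ∀ x : k, x ≠ 0 → x ^ (∑ p, μ p * p.2.1 i0) = x ^ W := by
    intro x hx
    let d : Fin n → k := Function.update 1 i0 x
    have hdet : (Matrix.diagonal d).det = x := by
      rw [Matrix.det_diagonal, ← Finset.mul_prod_erase Finset.univ _ (Finset.mem_univ i0)]
      change d i0 * _ = _
      rw [Finset.prod_eq_one, mul_one]
      · exact Function.update_self _ _ _
      · intro c hc
        exact Function.update_of_ne (Finset.ne_of_mem_erase hc) _ _
    have h1 := congrArg (coeff μ) (hQ (Matrix.diagonal d) (by rw [hdet]; exact hx))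
    rw [hdet, coeff_C_mul] at h1
    have h2 : SD.act (Matrix.diagonal d) Q =
        aeval (fun p => (C (∏ c, d c ^ p.2.1 c) * X p : SD.Cf k n m)) Q := by
      unfold SD.act
      congr 2
      funext p
      exact trans_diag d p
    rw [h2, aeval_scale] at h1
    have h3 := mul_right_cancel₀ hμ0 h1
    rw [← h3, ← Finset.prod_pow_eq_pow_sum]
    refine Finset.prod_congr rfl fun p _ => ?_
    rw [mul_comm, pow_mul]
    congr 1
    rw [← Finset.mul_prod_erase Finset.univ _ (Finset.mem_univ i0), Finset.prod_eq_one, mul_one]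
    · change x ^ _ = (Function.update 1 i0 x : Fin n → k) i0 ^ _
      rw [Function.update_self]
    · intro c hc
      change (Function.update 1 i0 x : Fin n → k) c ^ _ = 1
      rw [Function.update_of_ne (Finset.ne_of_mem_erase hc)]
      exact one_pow _
  by_contra hne
  have h1 : (Polynomial.X ^ (∑ p, μ p * p.2.1 i0) - Polynomial.X ^ W : Polynomial k) * Polynomial.X
      = 0 := by
    refine Polynomial.funext fun x => ?_
    rw [Polynomial.eval_mul, Polynomial.eval_sub, Polynomial.eval_pow, Polynomial.eval_pow,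
      Polynomial.eval_X, Polynomial.eval_zero]
    by_cases hx : x = 0
    · rw [hx, mul_zero]
    · rw [key x hx, sub_self, zero_mul]
  have h2 := (mul_eq_zero.1 h1).resolve_right Polynomial.X_ne_zero
  have h3 := congrArg (fun q => Polynomial.coeff q W) (sub_eq_zero.1 h2)
  simp only [Polynomial.coeff_X_pow] at h3
  rw [if_neg (Ne.symm hne), if_pos trivial] at h3
  exact zero_ne_one h3

theorem geR_sum {k L : Type} [Field k] [Field L] [Algebra k L] {w : Place k L} {ι : Type*}
    (s : Finset ι) (c : ℝ) (f : ι → L)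
    (h : ∀ i ∈ s, GeR w c (f i)) : GeR w c (∑ i ∈ s, f i) := by
  have h1 : ∀ f : L, GeR w c f ↔ Ge w ⌈c⌉ f := by
    intro f
    constructor
    · rintro (h | h)
      · exact Or.inl h
      · exact Or.inr (Int.ceil_le.2 h)
    · rintro (h | h)
      · exact Or.inl h
      · exact Or.inr (Int.ceil_le.1 h)
  rw [h1]
  exact Ge.sum s f fun i hi => (h1 _).1 (h i hi)

theorem t_ISO : S_ISO := by
  intro k K _ _ _ _ n m W v i0 θ Q hQ x hx
  classical
  rw [aeval_def, eval₂_eq']
  refine geR_sum _ _ _ fun μ hμ => ?_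
  have hW := weight i0 hQ hμ
  have h1 : ∀ s : Finset (Fin n × Ex n m),
      GeR v (-(∑ p ∈ s, (μ p * p.2.1 i0 : ℕ) * θ)) (∏ p ∈ s, x p ^ μ p) := by
    intro s
    induction s using Finset.induction_on with
    | empty =>
      right
      rw [Finset.prod_empty, v.ord_one]
      simp
    | insert a s ha ih =>
      rw [Finset.prod_insert ha, Finset.sum_insert ha]
      refine (((hx a).pow (μ a)).mul ih).mono (le_of_eq ?_)
      push_cast
      ring
  have h2 : Ge v 0 (algebraMap k K (coeff μ Q)) := Ge.const _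
  refine ((Ge.toR h2).mul (h1 Finset.univ)).mono (le_of_eq ?_)
  rw [← Finset.sum_mul, ← Nat.cast_sum, hW]
  push_cast
  ring

end

end Pool.Agent.Y174.OB
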