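import Pool.Agent.Y174.OB.Stm
import Pool.Agent.Y174.OB.Defs

/-! Orbifold forms: determinants. -/

set_option autoImplicit false
set_option linter.overlappingInstances false
set_option linter.unusedSectionVars false
set_option maxHeartbeats 400000

open FF IntermediateField Pool.Agent.W619.PQ Pool.Agent.W619.PL Pool.Agent.W619.TW
  Pool.Agent.W603.LV Pool.Agent.W619.Y Pool.Agent.W824.PG

namespace Pool.Agent.Y174.OB

section

variable {k L : Type} [Field k] [CharZero k] [Field L] [Algebra k L]

theorem geR_prod {w : Place k L} {ι : Type*} (s : Finset ι) (c : ι → ℝ) (f : ι → L)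
    (h : ∀ i ∈ s, GeR w (c i) (f i)) : GeR w (∑ i ∈ s, c i) (∏ i ∈ s, f i) := by
  classical
  induction s using Finset.induction_on with
  | empty =>
    right
    rw [Finset.prod_empty, w.ord_one]
    simp
  | insert b s hb ih =>
    rw [Finset.prod_insert hb, Finset.sum_insert hb]
    exact (h b (Finset.mem_insert_self _ _)).mul (ih fun i hi => h i (Finset.mem_insert_of_mem hi))

theorem geR_neg {w : Place k L} {c : ℝ} {f : L} (h : GeR w c f) : GeR w c (-f) := by
  have h1 : GeR w 0 (-1 : L) := by
    have h2 : Ge w 0 (1 : L) := Or.inr w.ord_one.ge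
    have h3 := Ge.toR h2.neg
    rw [Int.cast_zero] at h3
    exact h3
  have h2 := h1.mul h
  rw [neg_one_mul, zero_add] at h2
  exact h2

/-- the order of a determinant -/
theorem geR_det {w : Place k L} {n : ℕ} (A : Matrix (Fin n) (Fin n) L) (a b : Fin n → ℝ)
    (h : ∀ i j, GeR w (a i + b j) (A i j)) : GeR w (∑ i, a i + ∑ j, b j) A.det := by
  classical
  rw [Matrix.det_apply]
  refine GeR.sum _ _ _ fun σ _ => ?_
  have h1 : GeR w (∑ i, (a (σ i) + b i)) (∏ i, A (σ i) i) :=
    geR_prod _ _ _ fun i _ => h (σ i) i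
  have h2 : ∑ i, (a (σ i) + b i) = ∑ i, a i + ∑ j, b j := by
    rw [Finset.sum_add_distrib]
    congr 1
    exact Equiv.sum_comp σ a
  rw [h2] at h1
  rcases Int.units_eq_one_or (Equiv.Perm.sign σ) with h3 | h3
  · rw [h3, one_smul]
    exact h1
  · rw [h3, Units.neg_smul, one_smul]
    exact geR_neg h1

end

section

variable {k K L : Type} [Field k] [CharZero k] [Field K] [Algebra k K] [Field L] [Algebra k L]
  [Algebra K L] [IsScalarTower k K L]

/-- the determinant of the values of multivalued forms -/
noncomputable def jdet {n : ℕ} (J : Fin n → Derivation k K K →ₗ[K] L)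
    (D : Fin n → Derivation k K K) : L := (Matrix.of fun i j => J i (D j)).det

theorem jdet_lin {n : ℕ} (J : Fin n → Derivation k K K →ₗ[K] L)
    (X : Matrix (Fin n) (Fin n) K) (D : Fin n → Derivation k K K) :
    jdet J (fun i => ∑ j, X i j • D j) = algebraMap K L X.det * jdet J D := by
  unfold jdet
  have e3 : (X.map (algebraMap K L)).det = algebraMap K L X.det := by
    rw [RingHom.map_det]
    rfl
  have e2 : (Matrix.of fun i j => J i (∑ c, X j c • D c)) =
      (Matrix.of fun i j => J i (D j)) * (X.map (algebraMap K L)).transpose := by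
    ext i j
    rw [Matrix.mul_apply]
    simp only [Matrix.of_apply, Matrix.transpose_apply, Matrix.map_apply]
    rw [map_sum]
    exact Finset.sum_congr rfl fun c _ => by rw [map_smul, Algebra.smul_def, mul_comm]
  rw [e2, Matrix.det_mul, Matrix.det_transpose, e3, mul_comm]

/-- logarithmic vector fields -/
def Lg (v : Place k K) (D : Derivation k K K) : Prop := ∀ f, v.Reg (D f / f)

theorem Lg.pres {v : Place k K} {D : Derivation k K K} (h : Lg v D) : Pres v D := by
  intro f hf
  by_cases hf0 : f = 0
  · rw [hf0, map_zero]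
    exact Or.inl rfl
  have h1 := reg_mul (h f) hf
  rwa [div_mul_cancel₀ _ hf0] at h1

/-- The local estimate. -/
theorem jdet_ge {n : ℕ} (hn : Algebra.trdeg k K = n) (hess : Algebra.EssFiniteType k K)
    {v : Place k K} (hv : IsDivisorial v n) {w : Place k L} {e : ℕ} (hwv : Over w v e) {θ : ℝ}
    (a : Fin n → ℝ) (J : Fin n → Derivation k K K →ₗ[K] L)
    (h : ∀ i, (∀ D, Pres v D → GeR w (-θ + a i) (J i D)) ∧ ∀ D, Lg v D → GeR w (a i) (J i D))
    (D : Fin n → Derivation k K K) (hD : ∀ j, Pres v (D j)) :
    GeR w (-θ + ∑ i, a i) (jdet J D) := by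
  classical
  obtain ⟨y, F, i0, hy, hF, ht, hyr, hpres⟩ := pFRAME k K n hn
    (fun y hy => fin_adj hess y hy) v hv
  have ht0 := ne_zero_of_ord ht
  have h1 : D = fun i => ∑ j, (Matrix.of fun a b => D a (y b)) i j • F j := by
    funext i
    exact (Pool.Agent.W73.PG.PULL.expand y hy F hF (D i)).symm
  rw [h1, jdet_lin]
  have h2 : Ge w 0 (algebraMap K L (Matrix.of fun a b => D a (y b)).det) := by
    refine hwv.reg.2 ?_
    exact ge_det v _ fun a b => hD a _ (hyr b)
  have h3 : GeR w (∑ i, a i + ∑ j, (if j = i0 then -θ else 0)) (jdet J F) := by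
    refine geR_det _ a (fun j => if j = i0 then -θ else 0) fun i j => ?_
    simp only [Matrix.of_apply]
    by_cases hj : j = i0
    · rw [if_pos hj]
      refine ((h i).1 _ (hpres j)).mono (le_of_eq ?_)
      ring
    · rw [if_neg hj, add_zero]
      refine (h i).2 _ (log_of_pres v _ (hpres j) ht0 ht ?_)
      rw [hF, if_neg hj, zero_div]
      exact Or.inl rfl
  rw [Finset.sum_ite_eq' Finset.univ i0, if_pos (Finset.mem_univ _)] at h3
  refine ((Ge.toR h2).mul h3).mono (le_of_eq ?_)
  push_cast
  ring

end

end Pool.Agent.Y174.OB
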