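import Pool.Agent.Y174.OB.O8
import Pool.Agent.Y174.OB.Defs2

/-! Orbifold symmetric differentials: the stable base locus, and the geometric generic fibre. -/

set_option autoImplicit false
set_option linter.overlappingInstances false
set_option linter.unusedSectionVars false
set_option maxHeartbeats 400000

open FF MvPolynomial Pool.Agent.W619.PQ Pool.Agent.W619.PL Pool.Agent.W619.TW
  Pool.Agent.W603.LV Pool.Agent.W619.Y Pool.Agent.W824.PG Pool.Agent.Y174.T Pool.Agent.Y174.SD

namespace Pool.Agent.Y174.OB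

section

variable {k K : Type} [Field k] [CharZero k] [Field K] [Algebra k K] {n m : ℕ}

/-- powers -/
theorem symOrb_pow {δ0 : Place k K → ℝ} {s : Derivation k K K → K} (h : SymOrb n δ0 s) (l : ℕ) :
    SymOrb n δ0 (fun D => s D ^ l) := by
  intro v hv D E hD hE
  obtain ⟨p, hp, hpc⟩ := h v hv D E hD hE
  refine ⟨p ^ l, fun x => ?_, fun i => ?_⟩
  · rw [Polynomial.eval_pow, ← hp x]
  · have h1 : GeP v 0 (δ0 v) p := by
      intro i
      have h2 : GeR v (-(i * δ0 v)) (p.coeff i) := hpc i
      rw [zero_sub]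
      exact h2
    have h2 := h1.pow l i
    rw [mul_zero, zero_sub] at h2
    exact h2

/-- a polynomial which does not vanish -/
theorem exists_ne {L : Type} [Field L] [Algebra K L] {M N : ℕ} {H : Fin M → MvPolynomial (Fin n) K}
    (hN : ∀ β : Fin n →₀ ℕ, β.degree = N → monomial β 1 ∈ Ideal.span (Set.range H))
    {ξ : Fin n → L} (hξ : ξ ≠ 0) : ∃ j, aeval ξ (H j) ≠ 0 := by
  by_contra hcon
  push Not at hcon
  obtain ⟨b, hb⟩ : ∃ b, ξ b ≠ 0 := by
    by_contra h0
    push Not at h0
    exact hξ (funext h0)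
  have h1 := hN (Finsupp.single b N) (by simp)
  rw [Ideal.mem_span_range_iff_exists_fun] at h1
  obtain ⟨g, hg⟩ := h1
  have h2 := congrArg (aeval ξ) hg
  rw [map_sum, Finset.sum_eq_zero (fun j _ => by rw [map_mul, hcon, mul_zero]),
    aeval_monomial, map_one, one_mul, Finsupp.prod_single_index (h := fun i k => ξ i ^ k)
      (pow_zero _)] at h2
  exact pow_ne_zero N hb h2.symm

theorem noZeroOrb_of_noZCO {δ0 : Place k K → ℝ} {y : Fin n → K}
    (hy : IsTranscendenceBasis k y) (h : NoZCO m δ0 y) : NoZeroOrb k K n m δ0 := by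
  classical
  have hK0 : CharZero K := charZero_of_injective_algebraMap (algebraMap k K).injective
  obtain ⟨M, H, N, hH, hreg, hN⟩ := h
  intro E hE c hc
  obtain ⟨E0, hE0⟩ := Pool.Agent.W636.PG.exists_duals k K n y hy
  -- the matrix of `E`
  let A : Matrix (Fin n) (Fin n) K := Matrix.of fun i b => E i (y b)
  have hA : A.det ≠ 0 := by
    intro h0
    obtain ⟨v, hv, hv0⟩ := Matrix.exists_vecMul_eq_zero_iff.2 h0
    rw [Fintype.linearIndependent_iff] at hE
    apply hv
    funext i
    refine hE v ?_ i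
    have h1 : ∀ b, (∑ i, v i • E i) (y b) = 0 := by
      intro b
      rw [Pool.Agent.W721.PG.EFF2.der_sum]
      exact congrFun hv0 b
    rw [← Pool.Agent.W73.PG.PULL.expand y hy E0 hE0 (∑ i, v i • E i)]
    refine Finset.sum_eq_zero fun b _ => ?_
    rw [h1, zero_smul]
  let ξ : Fin n → AlgebraicClosure K := Matrix.vecMul c (A.map (algebraMap K (AlgebraicClosure K)))
  have hξ : ξ ≠ 0 := by
    intro h0
    apply hc
    have h1 : (A.map (algebraMap K (AlgebraicClosure K))).det ≠ 0 := by
      have h2 := RingHom.map_det (algebraMap K (AlgebraicClosure K)) A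
      change ((algebraMap K (AlgebraicClosure K)).mapMatrix A).det ≠ 0
      rw [← h2]
      exact (map_ne_zero_iff _ (algebraMap K (AlgebraicClosure K)).injective).2 hA
    by_contra hne
    exact h1 (Matrix.exists_vecMul_eq_zero_iff.1 ⟨c, hne, h0⟩)
  obtain ⟨j, hj⟩ := exists_ne hN hξ
  refine ⟨sym y (H j), aeval (fun b => ∑ i, C (A i b) * X i) (H j), sym_isSymDiff y _ (hH j),
    hreg j, fun a => ?_, ?_⟩
  · rw [Pool.Agent.Y174.eval_aeval]
    unfold sym
    refine congrArg (fun f => eval f (H j)) (funext fun b => ?_)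
    rw [Pool.Agent.W721.PG.EFF2.der_sum, map_sum]
    refine Finset.sum_congr rfl fun i _ => ?_
    rw [map_mul, eval_C, eval_X]
    change a i * E i (y b) = E i (y b) * a i
    rw [mul_comm]
  · have h1 : aeval c (aeval (fun b => ∑ i, C (A i b) * X i) (H j)) = aeval ξ (H j) := by
      rw [← AlgHom.comp_apply, MvPolynomial.comp_aeval]
      congr 2
      funext b
      rw [map_sum]
      refine Finset.sum_congr rfl fun i _ => ?_
      rw [map_mul, aeval_X, aeval_C]
      exact mul_comm _ _
    rw [h1]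
    exact hj

theorem noBase_of_noZero (hm : 1 ≤ m) {δ0 : Place k K → ℝ} (h : NoZeroOrb k K n m δ0) :
    NoBaseOrb k K n δ0 := by
  intro E hE c hc
  obtain ⟨s, p, h1, h2, h3, h4⟩ := h E hE c hc
  exact ⟨m, s, p, hm, h1, h2, h3, h4⟩

/-- One degree is enough. -/
theorem noZCO_of_noBase {δ0 : Place k K → ℝ} {y : Fin n → K}
    (hy : IsTranscendenceBasis k y) (h : NoBaseOrb k K n δ0) : ∃ m, 1 ≤ m ∧ NoZCO m δ0 y := by
  classical
  have hK0 : CharZero K := charZero_of_injective_algebraMap (algebraMap k K).injective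
  obtain ⟨E, hE⟩ := Pool.Agent.W636.PG.exists_duals k K n y hy
  obtain ⟨M, H, N, hH, hN⟩ := null (K := K) (L := AlgebraicClosure K)
    {p | ∃ m, 1 ≤ m ∧ p.IsHomogeneous m ∧ SymOrb n δ0 (sym (k := k) y p)} (by
      intro c hc
      obtain ⟨m, s, p, hm, hs, hlog, hp, hpc⟩ := h E (li_duals hE) c hc
      obtain ⟨q, hq, hqe⟩ := hs n E
      have hqp : q = p := by
        refine MvPolynomial.funext fun a => ?_
        rw [← hqe, hp]
      subst hqp
      refine ⟨q, ⟨m, hm, hq, ?_⟩, hpc⟩
      have hsq : s = sym y q := by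
        funext D
        have h3 := hqe fun c => D (y c)
        rw [Pool.Agent.W73.PG.PULL.expand y hy E hE D] at h3
        exact h3
      rw [← hsq]
      exact hlog)
  choose μ hμ1 hμh hμs using hH
  let T : ℕ := ∏ j, μ j
  have hT : 1 ≤ T := Nat.one_le_iff_ne_zero.2 (Finset.prod_ne_zero_iff.2 fun j _ =>
    Nat.one_le_iff_ne_zero.1 (hμ1 j))
  have hdvd : ∀ j, μ j ∣ T := fun j => Finset.dvd_prod_of_mem _ (Finset.mem_univ j)
  obtain ⟨M', H', N', hH', hN'⟩ := null (K := K) (L := AlgebraicClosure K)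
    {p | p.IsHomogeneous T ∧ SymOrb n δ0 (sym (k := k) y p)} (by
      intro c hc
      obtain ⟨j, hj⟩ := exists_ne hN hc
      refine ⟨H j ^ (T / μ j), ⟨?_, ?_⟩, ?_⟩
      · have h1 := (hμh j).pow (T / μ j)
        rwa [Nat.mul_div_cancel' (hdvd j)] at h1
      · have h1 := symOrb_pow (hμs j) (T / μ j)
        have h2 : sym (k := k) y (H j ^ (T / μ j)) = fun D => sym y (H j) D ^ (T / μ j) := by
          funext D
          exact map_pow (eval fun c => D (y c)) (H j) _
        rw [h2]
        exact h1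
      · rw [map_pow]
        exact pow_ne_zero _ hj)
  exact ⟨T, hT, M', H', N', fun j => (hH' j).1, fun j => (hH' j).2, hN'⟩

theorem noZero_of_noBase {δ0 : Place k K → ℝ} (hn : Algebra.trdeg k K = n)
    (h : NoBaseOrb k K n δ0) : ∃ m, 1 ≤ m ∧ NoZeroOrb k K n m δ0 := by
  obtain ⟨y, hy⟩ := Pool.Agent.W636.PG.exists_basis k K n hn
  obtain ⟨m, hm, h1⟩ := noZCO_of_noBase hy h
  exact ⟨m, hm, noZeroOrb_of_noZCO hy h1⟩

end

section

variable {k : Type} {L K Λ F : Type} [Field k] [CharZero k] [Field L] [Field K] [Field Λ]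
  [Field F] [Algebra k L] [Algebra k K] [Algebra L K] [IsScalarTower k L K] [Algebra L Λ]
  [Algebra Λ F] [Algebra K F] [Algebra L F] [IsScalarTower L Λ F] [IsScalarTower L K F]
  [Algebra k Λ] [Algebra k F] [IsScalarTower k Λ F] [IsScalarTower k K F]
  [IsScalarTower k L Λ]

/-- Restriction to the fibre. -/
theorem noBase_fib (hess : Algebra.EssFiniteType k K) [Algebra.IsAlgebraic L Λ] {d r : ℕ}
    (hL : Algebra.trdeg k L = d) (hn : Algebra.trdeg k K = (d + (r + 1) : ℕ))
    (hgenF : IntermediateField.adjoin Λ (Set.range (algebraMap K F)) = ⊤)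
    {δ0 : Place k K → ℝ} {δF : Place Λ F → ℝ} (hδ : IsPullFib δ0 δF) (hδ1 : ∀ v, δ0 v ≤ 1)
    (h : NoBaseOrb k K (d + (r + 1)) δ0) : NoBaseOrb Λ F (r + 1) δF := by
  classical
  have hL0 : CharZero L := charZero_of_injective_algebraMap (algebraMap k L).injective
  have hΛ0 : CharZero Λ := charZero_of_injective_algebraMap (algebraMap k Λ).injective
  have halg : Algebra.IsAlgebraic K F := alg_KF (L := L) hgenF
  have hLK := trdeg_LK (L := L) hL hn
  obtain ⟨t, ht⟩ := Pool.Agent.W636.PG.exists_basis k L d hL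
  obtain ⟨x, hx⟩ := Pool.Agent.W636.PG.exists_basis L K (r + 1) hLK
  have hy := basis_append ht hx
  have hx' := basis_F hLK hgenF hx
  obtain ⟨m, hm, M, H, N, hH, hreg, hN⟩ := noZCO_of_noBase hy h
  refine noBase_of_noZero hm (noZeroOrb_of_noZCO hx' ⟨M, fun j => rest F d (r + 1)
    (map (algebraMap K F) (H j)), N,
    fun j => rest_hom ((hH j).map _), fun j w hw D' E' hD' hE' => ?_, fun β hβ => ?_⟩)
  · have h2 : ∀ D' : Derivation Λ F F, sym (k := Λ) (algebraMap K F ∘ x)
        (rest F d (r + 1) (map (algebraMap K F) (H j))) D' =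
        eval₂ (algebraMap K F) (fun c => D' (algebraMap K F
          (Fin.append (algebraMap L K ∘ t) x c))) (H j) := by
      intro D'
      unfold sym
      rw [rest_eval, eval_map]
      congr 1
      funext c
      refine Fin.addCases (fun c => ?_) (fun i => ?_) c
      · rw [Fin.append_left, Fin.append_left, Function.comp_apply,
          ← IsScalarTower.algebraMap_apply L K F, IsScalarTower.algebraMap_apply L Λ F,
          Derivation.map_algebraMap]
      · rw [Fin.append_right, Fin.append_right]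
        rfl
    obtain ⟨p, hp, hpc⟩ := symOrb_res hess hn ht.1 hδ hδ1 _ (H j) (hreg j) w hw D' E' hD' hE'
    exact ⟨p, fun x => by rw [h2, hp x], fun i => hpc i⟩
  · have h1 := hN (β.mapDomain (Fin.natAdd d)) (by
      rw [← hβ]
      exact Finsupp.degree_mapDomain _ _)
    have h2 := Ideal.mem_map_of_mem (map (algebraMap K F)) h1
    rw [Ideal.map_span, ← Set.range_comp, map_monomial, map_one] at h2
    have h3 := Ideal.mem_map_of_mem (rest F d (r + 1)).toRingHom h2
    rw [Ideal.map_span, ← Set.range_comp] at h3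
    have h4 : (rest F d (r + 1)).toRingHom (monomial (β.mapDomain (Fin.natAdd d)) 1) =
        monomial β 1 := by
      rw [← rename_monomial]
      exact rest_rename _
    rw [h4] at h3
    exact h3

end

end Pool.Agent.Y174.OB
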