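import Pool.Agent.Y174.OB.O7
import Pool.Agent.Y174.OB.O9
import Pool.Agent.Y174.OB.Iso
import Pool.Agent.Y174.OB.Stm2
import Pool.Agent.Z932.OB.Val
import Pool.Agent.Y179.OB.Easy
import Pool.Agent.Y705.OB.PIG

/-! Orbifold symmetric differentials: the main theorem. -/

set_option autoImplicit false
set_option linter.overlappingInstances false
set_option linter.unusedSectionVars false
set_option maxHeartbeats 400000

open FF MvPolynomial Pool.Agent.W619.PQ Pool.Agent.W619.PL Pool.Agent.W619.TW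
  Pool.Agent.W603.LV Pool.Agent.W619.Y Pool.Agent.W824.PG Pool.Agent.Y174.T Pool.Agent.Y174.SD

namespace Pool.Agent.Y174.OB

section

variable {k K : Type} [Field k] [CharZero k] [Field K] [Algebra k K] {n : ℕ}

/-- `κ ≥ a + 1` implies `κ ≥ a`. -/
theorem kod_mono {δ : Place k K → ℝ} {a : ℕ} (h : PairKod k K n δ (a + 1)) :
    PairKod k K n δ a := by
  obtain ⟨m, hm, ω, h1, D, h2, h3⟩ := h
  refine ⟨m, hm, fun l => ω l.castSucc, fun l => h1 _, D, fun l => h2 _, ?_⟩
  exact h3.comp Fin.castSucc (Fin.castSucc_injective a)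

/-- Nonvanishing. -/
theorem nonvanishing [IsAlgClosed k] (hess : Algebra.EssFiniteType k K)
    (hn : Algebra.trdeg k K = n) {δ0 δ : Place k K → ℝ} (hO : IsOrb δ0) (hle : ∀ v, δ0 v ≤ δ v)
    (h : NoBaseOrb k K n δ0) : PairKod k K n δ 0 := by
  by_cases hκ : PairKod k K n δ 1
  · exact kod_mono hκ
  · obtain ⟨m, hm, h1⟩ := noZero_of_noBase hn h
    obtain ⟨M, -, -, -, -, h2, -⟩ := main1O t_ISO Pool.Agent.Z932.OB.t_VAL
      Pool.Agent.Y705.OB.t_PIG hess hn hm hO hle hκ h1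
    exact h2

end

section

variable {k L K Λ F : Type} [Field k] [CharZero k] [Field L] [Field K] [Field Λ]
  [Field F] [Algebra k L] [Algebra k K] [Algebra L K] [IsScalarTower k L K] [Algebra L Λ]
  [Algebra Λ F] [Algebra K F] [Algebra L F] [IsScalarTower L Λ F] [IsScalarTower L K F]
  [Algebra k Λ] [Algebra k F] [IsScalarTower k Λ F] [IsScalarTower k K F]
  [IsScalarTower k L Λ]

/-- **Main theorem**. -/
theorem main_base [IsAlgClosed Λ] (hessL : Algebra.EssFiniteType k L)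
    (hess : Algebra.EssFiniteType k K) [Algebra.IsAlgebraic L Λ] {d r : ℕ}
    (hL : Algebra.trdeg k L = d) (hn : Algebra.trdeg k K = (d + (r + 1) : ℕ))
    (hcl : ∀ x : K, IsAlgebraic L x → x ∈ Set.range (algebraMap L K))
    (hgenF : IntermediateField.adjoin Λ (Set.range (algebraMap K F)) = ⊤)
    {δ : Place k K → ℝ} {G : Finset K}
    (hG : ∀ v : Place k K, IsDivisorial v (d + (r + 1)) → ∃ g ∈ G, g ≠ 0 ∧ δ v ≤ (v.ord g : ℝ))
    {δF δ0 : Place Λ F → ℝ} (hδF : IsPullFib δ δF) (hO : IsOrb δ0) (hle : ∀ w, δ0 w ≤ δF w)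
    (hκ : ¬ PairKod Λ F (r + 1) δF 1) (h : NoBaseOrb Λ F (r + 1) δ0) :
    ∃ M : IntermediateField F (AlgebraicClosure F), FiniteDimensional F M ∧ IsGalois F M ∧
      (∃ (ω : Fin (r + 1) → (Derivation Λ F F →ₗ[F] M)), LinearIndependent M ω ∧
        ∀ i, OrbForm (r + 1) δ0 (ω i)) ∧
      (∃ (η : Fin (r + 1) → (Derivation Λ M M →ₗ[M] M)), LinearIndependent M η ∧
        ∀ i, ∀ w : Place Λ M, IsDivisorial w (r + 1) → ∀ D : Derivation Λ M M,
          LogFld (BdOn fun v => δ0 v = 1) w D → w.Reg (η i D)) ∧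
      PairKod Λ F (r + 1) δF 0 ∧ ∀ δ' : Place Λ M → ℝ, IsPull δF δ' →
        (∀ a, PairKod Λ F (r + 1) δF a ↔ PairKod Λ M (r + 1) δ' a) ∧
        ∀ h, PairNum Λ M (r + 1) δ' h →
          PairNum Λ F (r + 1) δF h ∧ PairNum k K (d + (r + 1)) δ (d + h) := by
  have hL0 : CharZero L := charZero_of_injective_algebraMap (algebraMap k L).injective
  have hΛ0 : CharZero Λ := charZero_of_injective_algebraMap (algebraMap k Λ).injective
  have hK0 : CharZero K := charZero_of_injective_algebraMap (algebraMap k K).injective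
  obtain ⟨m, hm, h1⟩ := noZero_of_noBase (trdeg_F (trdeg_LK (L := L) hL hn) hgenF) h
  exact main_ob t_ISO Pool.Agent.Z932.OB.t_VAL Pool.Agent.Y705.OB.t_PIG
    Pool.Agent.Y179.OB.t_EASY hessL hess hL hn hcl hgenF hm hG hδF hO hle hκ h1

end

end Pool.Agent.Y174.OB
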