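import Pool.Agent.Y174.OB.O1

/-! Orbifold forms: the invariant form. -/

set_option autoImplicit false
set_option linter.overlappingInstances false
set_option linter.unusedSectionVars false
set_option maxHeartbeats 1000000

open FF IntermediateField Pool.Agent.W619.PQ Pool.Agent.W619.PL Pool.Agent.W619.TW
  Pool.Agent.W603.LV Pool.Agent.W619.Y Pool.Agent.W824.PG

namespace Pool.Agent.Y174.OB

section

variable {k L : Type} [Field k] [CharZero k] [Field L] [Algebra k L]

/-- real bounds with a fractional part are improved -/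
theorem geR_frac {w : Place k L} {q : ℕ} (hq : 1 ≤ q) {e : ℕ} (hne : ¬ q ∣ e) {f : L}
    (h : GeR w (-(e * (1 - 1 / q : ℝ))) f) : GeR w (-(e * (1 - 1 / q : ℝ) - 1 / q)) f := by
  rcases h with h | h
  · exact Or.inl h
  right
  have hq0 : (0 : ℝ) < q := by exact_mod_cast hq
  -- multiply by q
  have h1 : -((e : ℝ) * (q - 1)) ≤ q * (w.ord f : ℝ) := by
    have h2 := mul_le_mul_of_nonneg_left h hq0.le
    have h3 : (q : ℝ) * -(e * (1 - 1 / q)) = -(e * (q - 1)) := by
      field_simp
    rw [h3] at h2
    exact h2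
  have h2 : -((e : ℤ) * (q - 1)) ≤ q * w.ord f := by exact_mod_cast h1
  have h3 : -((e : ℤ) * (q - 1)) ≠ q * w.ord f := by
    intro h4
    apply hne
    have h5 : (q : ℤ) ∣ e := ⟨w.ord f + e, by linarith⟩
    exact_mod_cast h5
  have h4 : -((e : ℤ) * (q - 1)) + 1 ≤ q * w.ord f := by omega
  have h5 : -((e : ℝ) * (q - 1)) + 1 ≤ q * (w.ord f : ℝ) := by exact_mod_cast h4
  have h6 : -(e * (1 - 1 / q : ℝ) - 1 / q) = (-((e : ℝ) * (q - 1)) + 1) / q := by
    field_simp
    ring
  rw [h6, div_le_iff₀ hq0]
  linarith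

/-- The invariant form. -/
theorem exists_theta_O (hPIG : S_PIG) [IsAlgClosed k] {G : Subgroup (L ≃ₐ[k] L)} {n : ℕ}
    (hn : Algebra.trdeg k L = n) [Finite G] (hess : Algebra.EssFiniteType k (fixedField G))
    (δ0 δ : Place k (fixedField G) → ℝ) (hO : IsOrb δ0) (hle : ∀ v, δ0 v ≤ δ v)
    (S : Set (Derivation k (fixedField G) (fixedField G) →ₗ[fixedField G] L)) (hSf : S.Finite)
    (hS : ∀ g : G, ∀ ω ∈ S, Y174.act g ω ∈ S)
    (hker : ∀ D : Derivation k (fixedField G) (fixedField G), (∀ ω ∈ S, ω D = 0) → D = 0)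
    (hfaith : ∀ g : G, g ≠ 1 → ∃ ω ∈ S, ∃ D : Derivation k (fixedField G) (fixedField G),
      (g : L ≃ₐ[k] L) (ω D) ≠ ω D)
    (hreg : ∀ ω ∈ S, ∀ (v : Place k (fixedField G)) (w : Place k L) (e : ℕ),
      IsDivisorial v n → Over w v e → ∀ D, (Pres v D → GeR w (-(e * δ0 v)) (ω D)) ∧
        (Lg v D → GeR w 0 (ω D))) :
    ∃ (N : ℕ) (Θ : (Fin n → Derivation k (fixedField G) (fixedField G)) → fixedField G),
      1 ≤ N ∧ IsPluriForm k (fixedField G) n N Θ ∧
      (∀ v : Place k (fixedField G), IsDivisorial v n →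
        ∀ D : Fin n → Derivation k (fixedField G) (fixedField G), (∀ j, Pres v (D j)) →
          GeR v (-(N * δ v)) (Θ D)) ∧
      (∃ D, Θ D ≠ 0) ∧
      ∀ (v : Place k (fixedField G)) (w : Place k L) (e : ℕ), IsDivisorial v n →
        Over w v e → 1 < e * (1 - δ v) →
        (∃ I : Subgroup G, Nat.card I = e ∧ ∀ g ∈ I, Inert w (g : L ≃ₐ[k] L)) →
        ∀ D : Fin n → Derivation k (fixedField G) (fixedField G), (∀ j, Pres v (D j)) →
          GeR w (e * (-(N * δ v)) + 1) (algebraMap (fixedField G) L (Θ D)) := by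
  classical
  have halgK := Pool.Agent.W721.PG.EFF2.alg_fixed G
  have := Fintype.ofFinite G
  obtain ⟨hnK, z, hz⟩ := Pool.Agent.W721.PG.EFF2.exists_basis (fixedField G) n hn
  obtain ⟨E, hE⟩ := Pool.Agent.W636.PG.exists_duals k (fixedField G) n _ hz
  have hexp := fun D : Derivation k (fixedField G) (fixedField G) =>
    Pool.Agent.W73.PG.PULL.expand z hz E hE D
  let x : (Derivation k (fixedField G) (fixedField G) →ₗ[fixedField G] L) → (Fin n → L) :=
    fun ω j => ω (E j)
  let S0 : Finset (Derivation k (fixedField G) (fixedField G) →ₗ[fixedField G] L) := hSf.toFinset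
  have hS0 : ∀ ω, ω ∈ S0 ↔ ω ∈ S := fun ω => hSf.mem_toFinset
  let S2 : Finset (Derivation k (fixedField G) (fixedField G) →ₗ[fixedField G] L) :=
    S0 ∪ (S0 ×ˢ S0).image (fun p => p.1 - p.2)
  have hS2 : ∀ ω, ω ∈ S2 ↔ ω ∈ S ∨ ∃ a ∈ S, ∃ b ∈ S, a - b = ω := by
    intro ω
    simp only [S2, Finset.mem_union, Finset.mem_image, Finset.mem_product, hS0, Prod.exists]
    constructor
    · rintro (h | ⟨a, b, ⟨h1, h2⟩, h3⟩)
      · exact Or.inl h
      · exact Or.inr ⟨a, h1, b, h2, h3⟩
    · rintro (h | ⟨a, h1, b, h2, h3⟩)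
      · exact Or.inl h
      · exact Or.inr ⟨a, b, ⟨h1, h2⟩, h3⟩
  have hactsub : ∀ (g : G) a b, Y174.act g (a - b) = Y174.act g a - Y174.act g b := by
    intro g a b
    ext D
    change (g : L ≃ₐ[k] L) (a D - b D) = (g : L ≃ₐ[k] L) (a D) - (g : L ≃ₐ[k] L) (b D)
    rw [map_sub]
  have hS2G : ∀ g : G, ∀ ω ∈ S2, Y174.act g ω ∈ S2 := by
    intro g ω hω
    rw [hS2] at hω ⊢
    rcases hω with h | ⟨a, ha, b, hb, rfl⟩
    · exact Or.inl (hS g ω h)
    · exact Or.inr ⟨Y174.act g a, hS g a ha, Y174.act g b, hS g b hb, (hactsub g a b).symm⟩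
  have hsubR : ∀ (w : Place k L) (c : ℝ) (f g : L), GeR w c f → GeR w c g →
      GeR w c (f - g) := by
    intro w c f g hf hg
    have h1 := GeR.sum (w := w) (Finset.univ : Finset (Fin 2)) c ![f, -g] (by
      intro i _
      fin_cases i
      · exact hf
      · exact geR_neg hg)
    rw [Fin.sum_univ_two] at h1
    simpa [sub_eq_add_neg] using h1
  have hS2r : ∀ ω ∈ S2, ∀ (v : Place k (fixedField G)) (w : Place k L) (e : ℕ),
      IsDivisorial v n → Over w v e → ∀ D, (Pres v D → GeR w (-(e * δ0 v)) (ω D)) ∧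
        (Lg v D → GeR w 0 (ω D)) := by
    intro ω hω v w e hv hwv D
    rw [hS2] at hω
    rcases hω with h | ⟨a, ha, b, hb, rfl⟩
    · exact hreg ω h v w e hv hwv D
    · exact ⟨fun hD => hsubR _ _ _ _ ((hreg a ha v w e hv hwv D).1 hD)
        ((hreg b hb v w e hv hwv D).1 hD), fun hD => hsubR _ _ _ _
        ((hreg a ha v w e hv hwv D).2 hD) ((hreg b hb v w e hv hwv D).2 hD)⟩
  let W : Finset (Fin n → (Derivation k (fixedField G) (fixedField G) →ₗ[fixedField G] L)) :=
    (Fintype.piFinset (fun _ : Fin n => S2)).filter (fun J => jdet J E ≠ 0)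
  have hW : ∀ J, J ∈ W ↔ (∀ i, J i ∈ S2) ∧ jdet J E ≠ 0 := by
    intro J
    simp only [W, Finset.mem_filter, Fintype.mem_piFinset]
  have hgdet : ∀ (g : G) (J : Fin n → (Derivation k (fixedField G) (fixedField G)
      →ₗ[fixedField G] L)) (D : Fin n → Derivation k (fixedField G) (fixedField G)),
      (g : L ≃ₐ[k] L) (jdet J D) = jdet (fun i => Y174.act g (J i)) D := by
    intro g J D
    unfold jdet
    exact RingHom.map_det ((g : L ≃ₐ[k] L) : L →+* L) _
  let Θ0 : (Fin n → Derivation k (fixedField G) (fixedField G)) → L := fun D =>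
    (∏ J ∈ W, jdet J D) ^ Fintype.card G
  have hinv : ∀ (g : G) D, (g : L ≃ₐ[k] L) (Θ0 D) = Θ0 D := by
    intro g D
    change (g : L ≃ₐ[k] L) ((∏ J ∈ W, jdet J D) ^ Fintype.card G) =
      (∏ J ∈ W, jdet J D) ^ Fintype.card G
    rw [map_pow, map_prod]
    congr 1
    have hmem : ∀ (h : G) J, J ∈ W → (fun i => Y174.act h (J i)) ∈ W := by
      intro h J hJ
      rw [hW] at hJ ⊢
      refine ⟨fun i => hS2G h _ (hJ.1 i), ?_⟩
      rw [← hgdet h J E]
      simpa using hJ.2
    refine Finset.prod_nbij (fun J i => Y174.act g (J i)) (fun J hJ => hmem g J hJ) ?_ ?_ ?_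
    · intro J _ J' _ h
      funext i
      exact act_inj g (congrFun h i)
    · intro J hJ
      refine ⟨fun i => Y174.act g⁻¹ (J i), hmem g⁻¹ J hJ, ?_⟩
      funext i
      exact act_inv g (J i)
    · intro J _
      exact hgdet g J D
  have hΘ0E : Θ0 E ≠ 0 := pow_ne_zero _ (Finset.prod_ne_zero_iff.2 fun J hJ => ((hW J).1 hJ).2)
  have htop : Submodule.span L (x '' (S2 : Set _)) = ⊤ := by
    refine top_le_iff.1 ?_
    have h1 := span_top' (fun j => E j) S hS (fun t ht => by
      have h2 : (∑ j, t j • E j) = 0 := hker _ ht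
      intro j
      have h3 := congrArg (fun D : Derivation k (fixedField G) (fixedField G) => D (z j)) h2
      change (∑ j, t j • E j) (z j) = 0 at h3
      rw [Pool.Agent.Y174.val_sum z E hE t j] at h3
      exact h3)
    rw [← h1]
    refine Submodule.span_mono (Set.image_mono fun ω hω => ?_)
    exact (hS2 ω).2 (Or.inl hω)
  have hWne : W.Nonempty := by
    obtain ⟨β, hβ⟩ := exists_det (K := L) (I := Fin n) (α := (S2 : Set
        (Derivation k (fixedField G) (fixedField G) →ₗ[fixedField G] L))) (fun θ => x θ.1) (by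
      rw [← htop]
      congr 1
      ext c
      constructor
      · rintro ⟨θ, rfl⟩
        exact ⟨θ.1, θ.2, rfl⟩
      · rintro ⟨θ, hθ, rfl⟩
        exact ⟨⟨θ, hθ⟩, rfl⟩)
    exact ⟨fun i => (β i).1, (hW _).2 ⟨fun i => (β i).2, hβ⟩⟩
  have hcG : 1 ≤ Fintype.card G := Fintype.card_pos
  have hΘ : IsPluriForm k (fixedField G) n (W.card * Fintype.card G)
      (fun D => ⟨Θ0 D, fun g => hinv g D⟩) := by
    intro X D
    apply Subtype.ext
    change (∏ J ∈ W, jdet J (fun i => ∑ j, X i j • D j)) ^ Fintype.card G =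
      algebraMap (fixedField G) L (X.det ^ (W.card * Fintype.card G) *
        ⟨Θ0 D, fun g => hinv g D⟩)
    rw [map_mul, map_pow, Finset.prod_congr rfl fun J _ => jdet_lin J X D,
      Finset.prod_mul_distrib, Finset.prod_const, mul_pow, ← pow_mul]
    rfl
  refine ⟨W.card * Fintype.card G, fun D => ⟨Θ0 D, fun g => hinv g D⟩,
    Nat.mul_pos hWne.card_pos (by omega), hΘ, ?_, ⟨E, fun h => hΘ0E
    (congrArg Subtype.val h)⟩, ?_⟩
  · intro v hv D hD
    obtain ⟨w, e, I, hwv, hcard, hI⟩ := exists_inertia G v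
    apply GeR.down hwv
    change GeR w _ (Θ0 D)
    have h1 := GeR.prod W (-(e * δ0 v)) (fun J => jdet J D) fun J hJ => by
      have h2 := jdet_ge hnK hess hv hwv (θ := e * δ0 v) (fun _ => 0) J (fun i => by
        have h3 := fun D => hS2r _ (((hW J).1 hJ).1 i) v w e hv hwv D
        rw [add_zero]
        exact ⟨fun D hD => (h3 D).1 hD, fun D hD => (h3 D).2 hD⟩) D hD
      rw [Finset.sum_const_zero, add_zero] at h2
      exact h2
    refine (h1.pow (Fintype.card G)).mono ?_
    have h2 := hle v
    have h3 : (0 : ℝ) ≤ (W.card : ℝ) * Fintype.card G * e := by positivity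
    push_cast
    nlinarith
  · rintro v w e hv hwv he ⟨I, hcard, hI⟩ D hD
    have he' : 1 < (e : ℝ) * (1 - δ0 v) := by
      refine lt_of_lt_of_le he (mul_le_mul_of_nonneg_left ?_ (Nat.cast_nonneg e))
      linarith [hle v]
    have heG : e ≤ Fintype.card G := by
      have h1 : Nat.card I ≤ Nat.card G := Nat.card_le_card_of_injective _ I.subtype_injective
      rw [hcard, Nat.card_eq_fintype_card] at h1
      exact h1
    change GeR w _ (Θ0 D)
    rcases hO v with h0 | ⟨q, hq, hδq⟩
    · rw [h0, sub_self, mul_zero] at he'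
      linarith
    have hq0 : (0 : ℝ) < q := by exact_mod_cast hq
    have heq : (q : ℝ) < e := by
      rw [hδq] at he'
      have h1 : (e : ℝ) * (1 - (1 - 1 / q)) = e / q := by ring
      rw [h1, lt_div_iff₀ hq0] at he'
      linarith
    have heq' : q < e := by exact_mod_cast heq
    -- the final estimate
    have hfin : ∀ ε : ℝ, 1 ≤ ε * Fintype.card G →
        GeR w (W.card * (-(e * δ0 v)) + ε) (∏ J ∈ W, jdet J D) →
        GeR w (e * (-((W.card * Fintype.card G : ℕ) * δ v)) + 1) (Θ0 D) := by
      intro ε hε h1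
      refine (h1.pow (Fintype.card G)).mono ?_
      have h2 := hle v
      have h3 : (0 : ℝ) ≤ (W.card : ℝ) * Fintype.card G * e := by positivity
      push_cast
      nlinarith
    by_cases hdv : q ∣ e
    · obtain ⟨l, hl⟩ := hdv
      have hl2 : 2 ≤ l := by
        by_contra hcon
        have h1 : l = 0 ∨ l = 1 := by omega
        rcases h1 with h1 | h1
        · rw [h1, mul_zero] at hl
          omega
        · rw [h1, mul_one] at hl
          omega
      have hδe : (e : ℝ) * δ0 v = ((e - l : ℤ) : ℝ) := by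
        rw [hδq, hl]
        push_cast
        field_simp
      obtain ⟨g, hgI, hg1, y, hy0, hyo, hgy⟩ := hPIG k L G v w e q l hwv hl hq hl2 I hcard hI
      obtain ⟨ω, hω, D0, hωg⟩ := hfaith g hg1
      have hδ2 : ω - Y174.act g ω ∈ (S2 : Set _) :=
        (hS2 _).2 (Or.inr ⟨ω, hω, Y174.act g ω, hS g ω hω, rfl⟩)
      have hδ0 : x (ω - Y174.act g ω) ≠ 0 := by
        intro h
        apply hωg
        have h1 : (ω - Y174.act g ω) D0 = 0 := by
          rw [← hexp D0, map_sum]
          refine Finset.sum_eq_zero fun j _ => ?_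
          have h2 : (ω - Y174.act g ω) (E j) = 0 := congrFun h j
          rw [map_smul, h2, smul_zero]
        have h2 : ω D0 - (g : L ≃ₐ[k] L) (ω D0) = 0 := h1
        exact (sub_eq_zero.1 h2).symm
      obtain ⟨J, hJ, ⟨i0, hi0⟩, hJ0⟩ := exists_tuple x (S2 : Set _) htop _ hδ2 hδ0
      have hJW : J ∈ W := (hW J).2 ⟨hJ, hJ0⟩
      apply hfin 1 (by rw [one_mul]; exact_mod_cast hcG)
      rw [← Finset.mul_prod_erase W _ hJW]
      have hωw := fun D => hreg ω hω v w e hv hwv D
      have hgωw := fun D => hreg _ (hS g ω hω) v w e hv hwv D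
      have h2 : GeR w (-(e * δ0 v) + 1) (jdet J D) := by
        have h3 := jdet_ge hnK hess hv hwv (θ := e * δ0 v) (fun i => if i = i0 then 1 else 0) J
          (fun i => by
            by_cases hi : i = i0
            · rw [if_pos hi, hi, hi0]
              refine ⟨fun D hD => ?_, fun D hD => ?_⟩
              · -- regular vector fields
                have h4 : Ge w (-((e : ℤ) - l)) (ω D) := by
                  have h5 := (hωw D).1 hD
                  rw [hδe] at h5
                  exact GeR.toInt (by push_cast at h5 ⊢; exact h5)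
                have h4' : Ge w (-((e : ℤ) - l)) ((g : L ≃ₐ[k] L) (ω D)) := by
                  have h5 := (hgωw D).1 hD
                  rw [hδe] at h5
                  exact GeR.toInt (by push_cast at h5 ⊢; exact h5)
                have hyG : Ge w ((e : ℤ) - l) y := Or.inr hyo.ge
                have h5 : Ge w 1 ((g : L ≃ₐ[k] L) (ω D * y) - ω D * y) := by
                  refine hI g hgI _ ?_
                  have h6 := h4.mul hyG
                  rw [neg_add_cancel] at h6
                  exact h6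
                have h6 : Ge w 1 ((g : L ≃ₐ[k] L) (ω D) * ((g : L ≃ₐ[k] L) y - y)) := by
                  have h7 := h4'.mul hgy
                  have h8 : -((e : ℤ) - l) + ((e : ℤ) - l + 1) = 1 := by ring
                  rw [h8] at h7
                  exact h7
                have h7 : Ge w 1 ((ω D - (g : L ≃ₐ[k] L) (ω D)) * y) := by
                  have h8 : (ω D - (g : L ≃ₐ[k] L) (ω D)) * y =
                      (g : L ≃ₐ[k] L) (ω D) * ((g : L ≃ₐ[k] L) y - y) -
                        ((g : L ≃ₐ[k] L) (ω D * y) - ω D * y) := by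
                    rw [map_mul]
                    ring
                  rw [h8]
                  exact h6.sub h5
                have h8 : Ge w (-((e : ℤ) - l)) y⁻¹ := Or.inr (by rw [w.ord_inv, hyo])
                have h9 := h7.mul h8
                rw [mul_inv_cancel_right₀ hy0] at h9
                have h10 := Ge.toR h9
                rw [hδe]
                refine h10.mono (le_of_eq ?_)
                push_cast
                ring
              · have h4 : Ge w 0 (ω D) := GeR.toInt (by simpa using (hωw D).2 hD)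
                have h5 := (hI g hgI _ h4).neg
                rw [neg_sub] at h5
                have h6 := Ge.toR h5
                rw [Int.cast_one] at h6
                exact h6
            · rw [if_neg hi, add_zero]
              have h3 := fun D => hS2r _ (hJ i) v w e hv hwv D
              exact ⟨fun D hD => (h3 D).1 hD, fun D hD => (h3 D).2 hD⟩) D hD
        rw [Finset.sum_ite_eq' Finset.univ i0, if_pos (Finset.mem_univ _)] at h3
        exact h3
      have h3 := GeR.prod (W.erase J) (-(e * δ0 v)) (fun J => jdet J D) fun J' hJ' => by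
        have h2 := jdet_ge hnK hess hv hwv (θ := e * δ0 v) (fun _ => 0) J' (fun i => by
          have h3 := fun D => hS2r _ (((hW J').1 (Finset.mem_of_mem_erase hJ')).1 i) v w e hv hwv D
          rw [add_zero]
          exact ⟨fun D hD => (h3 D).1 hD, fun D hD => (h3 D).2 hD⟩) D hD
        rw [Finset.sum_const_zero, add_zero] at h2
        exact h2
      refine (h2.mul h3).mono ?_
      rw [Finset.card_erase_of_mem hJW, Nat.cast_sub hWne.card_pos]
      push_cast
      apply le_of_eq
      ring
    · -- the fractional case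
      have h1 := GeR.prod W (-(e * δ0 v) + 1 / q) (fun J => jdet J D) fun J hJ => by
        have h2 := jdet_ge hnK hess hv hwv (θ := e * δ0 v - 1 / q) (fun _ => 0) J (fun i => by
          have h3 := fun D => hS2r _ (((hW J).1 hJ).1 i) v w e hv hwv D
          rw [add_zero]
          refine ⟨fun D hD => ?_, fun D hD => (h3 D).2 hD⟩
          have h4 := (h3 D).1 hD
          rw [hδq] at h4 ⊢
          exact geR_frac hq hdv h4) D hD
        rw [Finset.sum_const_zero, add_zero] at h2
        refine h2.mono (le_of_eq ?_)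
        ring
      refine hfin (W.card / q) ?_ (h1.mono (le_of_eq ?_))
      · have h2 : (1 : ℝ) ≤ W.card := by exact_mod_cast hWne.card_pos
        have h3 : (q : ℝ) ≤ Fintype.card G := by exact_mod_cast (heq'.le.trans heG)
        rw [div_mul_eq_mul_div, le_div_iff₀ hq0, one_mul]
        nlinarith
      · ring

end

end Pool.Agent.Y174.OB
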