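import Pool.Agent.Y174.OB.O2

/-! Orbifold forms: the theorem over a fixed field, transport. -/

set_option autoImplicit false
set_option linter.overlappingInstances false
set_option linter.unusedSectionVars false
set_option maxHeartbeats 1000000

open FF IntermediateField Pool.Agent.W619.PQ Pool.Agent.W619.PL Pool.Agent.W619.TW
  Pool.Agent.W603.LV Pool.Agent.W619.Y Pool.Agent.W824.PG

namespace Pool.Agent.Y174.OB

section

variable {k : Type} [Field k] [CharZero k] {K L : Type} [Field K] [Field L] [Algebra k K]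
  [Algebra k L] [Algebra K L] [IsScalarTower k K L]

theorem le_one {δ0 : Place k K → ℝ} (hO : IsOrb δ0) (v : Place k K) : δ0 v ≤ 1 := by
  rcases hO v with h | ⟨q, hq, h⟩
  · rw [h]
  · rw [h]
    have : (0 : ℝ) ≤ 1 / q := by positivity
    linarith

theorem ge_zero {δ0 : Place k K → ℝ} (hO : IsOrb δ0) (v : Place k K) : 0 ≤ δ0 v := by
  rcases hO v with h | ⟨q, hq, h⟩
  · rw [h]
    exact zero_le_one
  · rw [h]
    have hq1 : (1 : ℝ) ≤ q := by exact_mod_cast hq
    have : (1 : ℝ) / q ≤ 1 := by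
      rw [div_le_one (by linarith)]
      exact hq1
    linarith

/-- an element of order `> -1` is regular -/
theorem ge_of_lt {w : Place k L} {c : ℝ} (hc : -1 < c) {f : L} (h : GeR w c f) : Ge w 0 f := by
  rcases h with h | h
  · exact Or.inl h
  right
  have h1 : (-1 : ℝ) < w.ord f := hc.trans_le h
  have h2 : (-1 : ℤ) < w.ord f := by exact_mod_cast h1
  omega

/-- lifts of orbifold forms -/
theorem lift_orb [FiniteDimensional K L] (hess : Algebra.EssFiniteType k K) {n : ℕ}
    (hn : Algebra.trdeg k K = n) (z : Fin n → K) (hz : IsTranscendenceBasis k z)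
    (E : Fin n → Derivation k K K) (hE : ∀ i j, E i (z j) = if i = j then 1 else 0)
    {δ0 : Place k K → ℝ} (hO : IsOrb δ0) (ω : Derivation k K K →ₗ[K] L)
    (hreg : ∀ (v : Place k K) (w : Place k L) (e : ℕ), IsDivisorial v n →
      Over w v e → ∀ D, (Pres v D → GeR w (-(e * δ0 v)) (ω D)) ∧ (Lg v D → GeR w 0 (ω D)))
    (w : Place k L) (hw : IsDivisorial w n)
    (D : Derivation k L L) (hD : LogFld (BdOn fun v => δ0 v = 1) w D) :
    w.Reg (lift z E ω D) := by
  obtain ⟨r, v, hwv⟩ := Pool.Agent.W73.PG.PULL.exists_over' (K := K) w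
  have hv := pDIVI k K L n v w r hwv hw
  obtain ⟨y', F, i0, hy', hF, ht, hyr, hpres⟩ := pFRAME k K n hn (fun y hy => fin_adj hess y hy)
    v hv
  have ht0 := ne_zero_of_ord ht
  have ht0' : algebraMap K L (y' i0) ≠ 0 := by simpa using ht0
  have hov : Over w v r := hwv
  rw [lift_eq z hz E hE y' hy' F hF, lift_apply]
  have hDp : Pres w D := hD.pres
  have h1 : Ge w 0 (∑ b, D (algebraMap K L (y' b)) * ω (F b)) := by
    refine Ge.sum _ _ fun b _ => ?_
    by_cases hb : b = i0
    · rw [hb]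
      by_cases hδ : δ0 v = 1
      · have h2 : Ge w 0 (D (algebraMap K L (y' i0)) / algebraMap K L (y' i0)) :=
          hD.2 ((bdOn_iff hwv).2 hδ) _
        have h3 : GeR w 0 (ω (y' i0 • F i0)) := by
          refine (hreg v w r hv hov _).2 (log_of_pres v _ ?_ ht0 ht ?_)
          · intro f hf
            rw [Derivation.smul_apply, smul_eq_mul]
            exact reg_mul (Or.inr (by omega)) (hpres i0 f hf)
          · rw [Derivation.smul_apply, smul_eq_mul, mul_div_cancel_left₀ _ ht0]
            exact hpres _ _ (Or.inr (by omega))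
        have h4 := (Ge.toR h2).mul h3
        rw [map_smul, Algebra.smul_def, ← mul_assoc, div_mul_cancel₀ _ ht0'] at h4
        exact GeR.toInt (by simpa using h4)
      · have hlt : δ0 v < 1 := lt_of_le_of_ne (le_one hO v) hδ
        have h2 := Ge.toR (ge_der hDp ht0')
        rw [hov.2, ht] at h2
        have h3 := (hreg v w r hv hov _).1 (hpres i0)
        refine ge_of_lt ?_ (h2.mul h3)
        have hr : (0 : ℝ) < r := by exact_mod_cast hov.1
        push_cast
        nlinarith
    · have h2 : Ge w 0 (D (algebraMap K L (y' b))) := hDp _ (hov.reg.2 (hyr b))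
      have h3 : GeR w 0 (ω (F b)) := by
        refine (hreg v w r hv hov _).2 (log_of_pres v _ (hpres b) ht0 ht ?_)
        rw [hF, if_neg hb, zero_div]
        exact Or.inl rfl
      have h4 := (Ge.toR h2).mul h3
      exact GeR.toInt (by simpa using h4)
  exact h1

/-- The 1-forms on the cover. -/
theorem formsO [FiniteDimensional K L] (hess : Algebra.EssFiniteType k K) {n : ℕ}
    (hn : Algebra.trdeg k K = n) {δ0 : Place k K → ℝ} (hO : IsOrb δ0) (z : Fin n → K)
    (hz : IsTranscendenceBasis k z) (E : Fin n → Derivation k K K)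
    (hE : ∀ i j, E i (z j) = if i = j then 1 else 0)
    (S : Set (Derivation k K K →ₗ[K] L))
    (hreg : ∀ ω ∈ S, ∀ (v : Place k K) (w : Place k L) (e : ℕ), IsDivisorial v n →
      Over w v e → ∀ D, (Pres v D → GeR w (-(e * δ0 v)) (ω D)) ∧ (Lg v D → GeR w 0 (ω D)))
    (hspan : Submodule.span L ((fun ω : Derivation k K K →ₗ[K] L => fun j => ω (E j)) '' S) = ⊤) :
    ∃ (η : Fin n → (Derivation k L L →ₗ[L] L)), LinearIndependent L η ∧
      ∀ i, ∀ w : Place k L, IsDivisorial w n → ∀ D : Derivation k L L,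
        LogFld (BdOn fun v => δ0 v = 1) w D → w.Reg (η i D) := by
  classical
  obtain ⟨β, hβ⟩ := exists_det (K := L) (I := Fin n) (α := S) (fun θ j => θ.1 (E j)) (by
    rw [← hspan]
    congr 1
    ext c
    constructor
    · rintro ⟨θ, rfl⟩
      exact ⟨θ.1, θ.2, rfl⟩
    · rintro ⟨θ, hθ, rfl⟩
      exact ⟨⟨θ, hθ⟩, rfl⟩)
  choose ext hext hext2 hext3 using pEXT k K L n hn
  refine ⟨fun i => lift z E (β i).1, ?_,
    fun i w hw D hD => lift_orb hess hn _ hz E hE hO (β i).1 (hreg _ (β i).2) w hw D hD⟩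
  by_contra hcon
  have h3 := det_zero_of_dep _ hcon (fun j => ext (E j))
  have h4 : (Matrix.of fun i j => lift z E (β i).1 (ext (E j))).det =
      (Matrix.of fun i j => (β i).1 (E j)).det := by
    congr 1
    ext i j
    rw [Matrix.of_apply, Matrix.of_apply, lift_ext z hz E hE _ (E j) _ (fun f => hext _ f)]
  rw [h4] at h3
  exact hβ h3

end

section

variable {k : Type} [Field k] [CharZero k] {L : Type} [Field L] [Algebra k L]
  {G : Subgroup (L ≃ₐ[k] L)}

/-- The theorem over a fixed field. -/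
theorem fixed_O (hPIG : S_PIG) [IsAlgClosed k] [Finite G]
    (hess : Algebra.EssFiniteType k (fixedField G)) {n : ℕ}
    (hn : Algebra.trdeg k L = n)
    (δ0 δ : Place k (fixedField G) → ℝ) (hO : IsOrb δ0) (hle : ∀ v, δ0 v ≤ δ v)
    (δ' : Place k L → ℝ) (hδ' : IsPull δ δ')
    (S : Set (Derivation k (fixedField G) (fixedField G) →ₗ[fixedField G] L)) (hSf : S.Finite)
    (hS : ∀ g : G, ∀ ω ∈ S, Y174.act g ω ∈ S)
    (hker : ∀ D : Derivation k (fixedField G) (fixedField G), (∀ ω ∈ S, ω D = 0) → D = 0)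
    (hfaith : ∀ g : G, g ≠ 1 → ∃ ω ∈ S, ∃ D : Derivation k (fixedField G) (fixedField G),
      (g : L ≃ₐ[k] L) (ω D) ≠ ω D)
    (hreg : ∀ ω ∈ S, ∀ (v : Place k (fixedField G)) (w : Place k L) (e : ℕ),
      IsDivisorial v n → Over w v e → ∀ D, (Pres v D → GeR w (-(e * δ0 v)) (ω D)) ∧
        (Lg v D → GeR w 0 (ω D))) :
    (∃ (η : Fin n → (Derivation k L L →ₗ[L] L)), LinearIndependent L η ∧
      ∀ i, ∀ w : Place k L, IsDivisorial w n → ∀ D : Derivation k L L,
        LogFld (BdOn fun v => δ0 v = 1) w D → w.Reg (η i D)) ∧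
      PairKod k (fixedField G) n δ 0 ∧
      ∀ a, PairKod k L n δ' a → PairKod k (fixedField G) n δ a := by
  classical
  have halgK := Pool.Agent.W721.PG.EFF2.alg_fixed G
  have hfin := fixed_finite G
  obtain ⟨hnK, z, hz⟩ := Pool.Agent.W721.PG.EFF2.exists_basis (fixedField G) n hn
  obtain ⟨E, hE⟩ := Pool.Agent.W636.PG.exists_duals k (fixedField G) n _ hz
  have hessL : Algebra.EssFiniteType k L := by
    have h1 : Algebra.EssFiniteType (fixedField G) L := inferInstance
    exact Algebra.EssFiniteType.comp k (fixedField G) L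
  obtain ⟨N, Θ, hN, hΘ, hΘr, hΘ0, hΘv⟩ := exists_theta_O hPIG hn hess δ0 δ hO hle S hSf hS
    hker hfaith hreg
  refine ⟨?_, kod_self δ hN Θ hΘ hΘr hΘ0, fun a ha => pair_desc hn hessL G δ δ'
    (fun v _ => (ge_zero hO v).trans (hle v)) hδ' N Θ hΘ hΘr hΘ0 (fun v w e hv hwv he hI D hD =>
      hΘv v w e hv hwv he hI D hD) ha⟩
  refine formsO hess hnK hO z hz E hE S hreg ?_
  refine span_top' (fun j => E j) S hS fun t ht => ?_
  have h2 : (∑ j, t j • E j) = 0 := hker _ ht
  intro j
  have h3 := congrArg (fun D : Derivation k (fixedField G) (fixedField G) => D (z j)) h2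
  change (∑ j, t j • E j) (z j) = 0 at h3
  rw [Pool.Agent.Y174.val_sum z E hE t j] at h3
  exact h3

end

section

variable {k : Type} [Field k] [CharZero k] {K L : Type} [Field K] [Field L] [Algebra k K]
  [Algebra k L] [Algebra K L] [IsScalarTower k K L]

theorem lg_equiv {K' : Type} [Field K'] [Algebra k K'] (e : K ≃ₐ[k] K')
    (v : Place k K') (D : Derivation k K' K')
    (hD : Lg v D) : Lg (plc e v) (cDer e.symm D) := by
  intro f
  have h2 := hD (e f)
  rw [reg_plc, map_div₀]
  have h3 : e (cDer e.symm D f) = D (e f) := by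
    rw [cDer_apply]
    change e (e.symm (D (e f))) = _
    rw [e.apply_symm_apply]
  rw [h3]
  exact h2

/-- The theorem for a Galois extension, given by an isomorphism with a fixed field. -/
theorem main_isoO (hPIG : S_PIG) [IsAlgClosed k] [FiniteDimensional K L]
    (hess : Algebra.EssFiniteType k K)
    {n : ℕ} (hnL : Algebra.trdeg k L = n)
    (G : Subgroup (L ≃ₐ[k] L)) [Finite G] (e : K ≃ₐ[k] fixedField G)
    (he : ∀ x, ((e x : fixedField G) : L) = algebraMap K L x)
    (δ0 δ : Place k K → ℝ) (hO : IsOrb δ0) (hle : ∀ v, δ0 v ≤ δ v)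
    (δ' : Place k L → ℝ) (hδ' : IsPull δ δ')
    {ι : Type*} [Finite ι] (ω : ι → Derivation k K K →ₗ[K] L)
    (hregK : ∀ (i : ι) (v : Place k K) (w : Place k L) (e : ℕ), IsDivisorial v n →
      Over w v e → ∀ D, (Pres v D → GeR w (-(e * δ0 v)) (ω i D)) ∧ (Lg v D → GeR w 0 (ω i D)))
    (hker : ∀ D : Derivation k K K, (∀ i, ω i D = 0) → D = 0)
    (hfaith : ∀ g : G, g ≠ 1 → ∃ (h : G) (i : ι) (D : Derivation k K K),
      (g : L ≃ₐ[k] L) ((h : L ≃ₐ[k] L) (ω i D)) ≠ (h : L ≃ₐ[k] L) (ω i D)) :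
    (∃ (η : Fin n → (Derivation k L L →ₗ[L] L)), LinearIndependent L η ∧
      ∀ i, ∀ w : Place k L, IsDivisorial w n → ∀ D : Derivation k L L,
        LogFld (BdOn fun v => δ0 v = 1) w D → w.Reg (η i D)) ∧
      PairKod k K n δ 0 ∧
      ∀ a, PairKod k L n δ' a → PairKod k K n δ a := by
  classical
  have hess' : Algebra.EssFiniteType k (fixedField G) :=
    (Algebra.EssFiniteType.iff_of_algEquiv e).1 hess
  have halgK := Pool.Agent.W721.PG.EFF2.alg_fixed G
  obtain ⟨hnK, -⟩ := Pool.Agent.W721.PG.EFF2.exists_basis (fixedField G) n hnL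
  have hcc : ∀ D : Derivation k K K, cDer e.symm (cDer e D) = D := cDer_cDer e
  have hcc' : ∀ D : Derivation k (fixedField G) (fixedField G), cDer e (cDer e.symm D) = D :=
    cDer_cDer e.symm
  have key := fixed_O (k := k) (G := G) hPIG hess' hnL
    (fun v => δ0 (plc e v)) (fun v => δ (plc e v)) (fun v => hO _) (fun v => hle _) δ'
    (by
      intro v w r hwv
      exact hδ' (plc e v) w r (over_equiv e he v w r hwv))
    (Set.range fun p : G × ι => Y174.act p.1 (trE e he (ω p.2))) (Set.finite_range _)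
    (by
      rintro g _ ⟨⟨h, i⟩, rfl⟩
      refine ⟨(g * h, i), ?_⟩
      ext D
      rfl)
    (by
      intro D hD
      have h1 : cDer e.symm D = 0 := by
        apply hker _
        intro i
        have h2 := hD _ ⟨(1, i), rfl⟩
        exact h2
      rw [← hcc' D, h1]
      ext x
      rw [cDer_apply]
      simp)
    (by
      intro g hg
      obtain ⟨h, i, D, hne⟩ := hfaith g hg
      refine ⟨_, ⟨(h, i), rfl⟩, cDer e D, ?_⟩
      change (g : L ≃ₐ[k] L) ((h : L ≃ₐ[k] L) (ω i (cDer e.symm (cDer e D)))) ≠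
        (h : L ≃ₐ[k] L) (ω i (cDer e.symm (cDer e D)))
      rw [hcc]
      exact hne)
    (by
      rintro _ ⟨⟨g, i⟩, rfl⟩ v w r hv h D
      have h1 := over_comp h (g : L ≃ₐ[k] L) (fun z => z.2 g)
      have h2 := hregK i (plc e v) _ r (div_equiv e v hv) (over_equiv e he v _ r h1)
        (cDer e.symm D)
      refine ⟨fun hD => ?_, fun hD => ?_⟩
      · change GeR w _ ((g : L ≃ₐ[k] L) (ω i (cDer e.symm D)))
        rw [← GeR.comp]
        exact h2.1 (fun f hf => pres_equiv e v D hD f hf)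
      · change GeR w _ ((g : L ≃ₐ[k] L) (ω i (cDer e.symm D)))
        rw [← GeR.comp]
        exact h2.2 (lg_equiv e v D hD))
  obtain ⟨⟨η, hli, hη⟩, hK0, hdesc⟩ := key
  have hpl : ∀ v : Place k K, (fun v => δ (plc e v)) (plc e.symm v) = δ v := by
    intro v
    change δ (plc e (plc e.symm v)) = δ v
    rw [plc_symm]
  have hBd : ∀ w : Place k L, BdOn (fun v => δ0 v = 1) w ↔
      BdOn (fun v => δ0 (plc e v) = 1) w := by
    intro w
    constructor
    · rintro ⟨v, r, h, hBv⟩
      refine ⟨plc e.symm v, r, ⟨h.1, fun f => ?_⟩, ?_⟩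
      · have h1 := h.2 (e.symm f)
        rw [← he, e.apply_symm_apply] at h1
        exact h1
      · change δ0 (plc e (plc e.symm v)) = 1
        rw [plc_symm]
        exact hBv
    · rintro ⟨v, r, h, hBv⟩
      exact ⟨plc e v, r, over_equiv e he v w r h, hBv⟩
  have hδ0 : ∀ v, 0 ≤ δ v := fun v => (ge_zero hO v).trans (hle v)
  refine ⟨⟨η, hli, fun i w hw D hD => hη i w hw D ?_⟩,
    pair_equiv e.symm hess' hnK _ δ hδ0 hpl hK0, fun a ha => pair_equiv e.symm hess' hnK _ δ hδ0
      hpl (hdesc a ha)⟩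
  exact ⟨fun h => hD.1 fun h' => h ((hBd w).1 h'), fun h => hD.2 ((hBd w).2 h)⟩

/-- Main theorem, for a Galois extension. -/
theorem main_O (hPIG : S_PIG) [IsAlgClosed k] [FiniteDimensional K L] [IsGalois K L]
    (hess : Algebra.EssFiniteType k K)
    {n : ℕ} (hn : Algebra.trdeg k K = n)
    (δ0 δ : Place k K → ℝ) (hO : IsOrb δ0) (hle : ∀ v, δ0 v ≤ δ v)
    (δ' : Place k L → ℝ) (hδ' : IsPull δ δ')
    {ι : Type*} [Finite ι] (ω : ι → Derivation k K K →ₗ[K] L)
    (hregK : ∀ (i : ι) (v : Place k K) (w : Place k L) (e : ℕ), IsDivisorial v n →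
      Over w v e → ∀ D, (Pres v D → GeR w (-(e * δ0 v)) (ω i D)) ∧ (Lg v D → GeR w 0 (ω i D)))
    (hker : ∀ D : Derivation k K K, (∀ i, ω i D = 0) → D = 0)
    (hgen : IntermediateField.adjoin K {z | ∃ (g : L ≃ₐ[K] L) (i : ι) (D : Derivation k K K),
      g (ω i D) = z} = ⊤) :
    (∃ (η : Fin n → (Derivation k L L →ₗ[L] L)), LinearIndependent L η ∧
      ∀ i, ∀ w : Place k L, IsDivisorial w n → ∀ D : Derivation k L L,
        LogFld (BdOn fun v => δ0 v = 1) w D → w.Reg (η i D)) ∧
      PairKod k K n δ 0 ∧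
      (∀ a, PairKod k K n δ a ↔ PairKod k L n δ' a) ∧
      ∀ a, PairNum k L n δ' a → PairNum k K n δ a := by
  classical
  have hGf : Finite (gal k K L) := gal_finite
  have hnL : Algebra.trdeg k L = n := trdeg_up (K := K) hn
  have key := main_isoO (k := k) (K := K) (L := L) hPIG hess hnL (gal k K L)
    (eqv (k := k) (K := K) (L := L)) (fun x => eqv_coe x) δ0 δ hO hle δ' hδ' ω
    hregK hker (by
      intro g hg
      by_contra hcon
      push Not at hcon
      apply hg
      have h1 : ∀ (h : L ≃ₐ[K] L) i (D : Derivation k K K),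
          (g : L ≃ₐ[k] L) (h (ω i D)) = h (ω i D) := by
        intro h i D
        exact hcon ⟨h.restrictScalars k, fun y => h.commutes y⟩ i D
      have h2 : IntermediateField.adjoin K {z | ∃ (g : L ≃ₐ[K] L) (i : ι)
          (D : Derivation k K K), g (ω i D) = z} ≤
          IntermediateField.fixedField (Subgroup.zpowers (galK g)) := by
        rw [IntermediateField.adjoin_le_iff]
        rintro _ ⟨h', i, D, rfl⟩ ⟨h, hh⟩
        obtain ⟨m, rfl⟩ := Subgroup.mem_zpowers_iff.1 hh
        have h3 : galK g (h' (ω i D)) = h' (ω i D) := h1 h' i D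
        have h4 : galK g ∈ MulAction.stabilizer (L ≃ₐ[K] L) (h' (ω i D)) := h3
        exact Subgroup.zpow_mem _ h4 m
      rw [hgen, top_le_iff] at h2
      apply Subtype.ext
      ext z
      have h3 : z ∈ IntermediateField.fixedField (Subgroup.zpowers (galK g)) := by
        rw [h2]; trivial
      exact h3 ⟨galK g, Subgroup.mem_zpowers _⟩)
  obtain ⟨h1, hK0, hdesc⟩ := key
  exact ⟨h1, hK0, fun a => ⟨fun h => pair_up hess hn hδ' h, hdesc a⟩,
    fun a h => pair_num hess hn hδ' h⟩

end

end Pool.Agent.Y174.OB
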