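import Pool.Agent.Y174.OB.O4
import Pool.Agent.Y174.SD.G14

/-! Orbifold symmetric differentials: semi-invariants are sections. -/

set_option autoImplicit false
set_option linter.overlappingInstances false
set_option linter.unusedSectionVars false
set_option maxHeartbeats 400000

open FF MvPolynomial Pool.Agent.W619.PQ Pool.Agent.W619.PL Pool.Agent.W619.TW
  Pool.Agent.W603.LV Pool.Agent.W619.Y Pool.Agent.Y174.T Pool.Agent.Y174.SD

namespace Pool.Agent.Y174.OB

section

variable {k K : Type} [Field k] [CharZero k] [Field K] [Algebra k K]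

theorem eval_cmap {σ : Type*} [Fintype σ] (φ : K →ₗ[k] k) (P : MvPolynomial σ K) (β : σ → k) :
    eval β (cmap (φ : K →ₗ[k] k).toAddMonoidHom P) =
      φ (eval (fun i => algebraMap k K (β i)) P) := by
  classical
  conv_rhs => rw [← support_sum_monomial_coeff P]
  unfold cmap
  rw [map_sum, map_sum, map_sum]
  refine Finset.sum_congr rfl fun e _ => ?_
  rw [eval_monomial, eval_monomial, Finsupp.prod_fintype _ _ (fun i => pow_zero _),
    Finsupp.prod_fintype _ _ (fun i => pow_zero _)]
  have h1 : coeff e P * ∏ i, algebraMap k K (β i) ^ e i = (∏ i, β i ^ e i) • coeff e P := by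
    rw [Algebra.smul_def, map_prod, mul_comm]
    congr 1
    exact Finset.prod_congr rfl fun i _ => (map_pow _ _ _).symm
  rw [h1, map_smul, smul_eq_mul, mul_comm]
  rfl

/-- coefficients of a polynomial with values at the constants in a subspace -/
theorem coeff_sub {n : ℕ} (V : Submodule k K) (P : MvPolynomial (Fin n) K)
    (h : ∀ β : Fin n → k, eval (fun i => algebraMap k K (β i)) P ∈ V) (e : Fin n →₀ ℕ) :
    coeff e P ∈ V := by
  classical
  by_contra hcon
  obtain ⟨φ, hφ, hφV⟩ := Submodule.exists_dual_map_eq_bot_of_notMem hcon inferInstance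
  apply hφ
  have h1 : cmap (φ : K →ₗ[k] k).toAddMonoidHom P = 0 := by
    refine MvPolynomial.funext fun β => ?_
    rw [eval_cmap, map_zero]
    have h2 := Submodule.mem_map_of_mem (f := φ) (h β)
    rw [hφV] at h2
    exact (Submodule.mem_bot k).1 h2
  have h2 := congrArg (coeff e) h1
  rw [coeff_cmap, coeff_zero] at h2
  exact h2

/-- elements of order at least `c` -/
def geS (v : Place k K) (c : ℝ) : Submodule k K where
  carrier := {x | GeR v c x}
  add_mem' := by
    intro a b ha hb
    have h1 := GeR.sum (w := v) (Finset.univ : Finset (Fin 2)) c ![a, b] (by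
      intro i _
      fin_cases i
      · exact ha
      · exact hb)
    rw [Fin.sum_univ_two] at h1
    exact h1
  zero_mem' := Or.inl rfl
  smul_mem' := by
    intro x a ha
    change GeR v c (x • a)
    rw [Algebra.smul_def]
    have h1 : Ge v 0 (algebraMap k K x) := reg_const x
    have h2 := (Ge.toR h1).mul ha
    simpa using h2

theorem mem_geS {v : Place k K} {c : ℝ} {x : K} : x ∈ geS v c ↔ GeR v c x := Iff.rfl

variable {n m : ℕ}

/-- The coefficients of the polynomial of an orbifold symmetric differential in a frame. -/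
theorem coeff_orb (P : MvPolynomial (Fin n) K) (i0 : Fin n) {v : Place k K} {θ : ℝ}
    (h : ∀ β : Fin n → k, ∃ p : Polynomial K,
      (∀ x : K, eval (Function.update (fun b => algebraMap k K (β b)) i0 x) P = p.eval x) ∧
      ∀ i : ℕ, GeR v (-(i * θ)) (p.coeff i)) (e : Fin n →₀ ℕ) :
    GeR v (-(e i0 * θ)) (coeff e P) := by
  classical
  have hK0 : CharZero K := charZero_of_injective_algebraMap (algebraMap k K).injective
  obtain ⟨i, hi⟩ : ∃ i, e i0 = i := ⟨_, rfl⟩
  let R : MvPolynomial (Fin n) K :=
    ∑ f ∈ P.support with f i0 = i, monomial (f.erase i0) (coeff f P)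
  have hR : coeff (e.erase i0) R = coeff e P := by
    change coeff (e.erase i0) (∑ f ∈ P.support with f i0 = i, monomial (f.erase i0) (coeff f P)) = _
    rw [coeff_sum]
    simp only [coeff_monomial]
    have h1 : ∀ f ∈ P.support.filter (fun f => f i0 = i),
        (if f.erase i0 = e.erase i0 then coeff f P else 0) = if f = e then coeff f P else 0 := by
      intro f hf
      have hf0 := (Finset.mem_filter.1 hf).2
      by_cases h2 : f = e
      · rw [if_pos h2, if_pos (by rw [h2])]
      · rw [if_neg h2, if_neg]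
        intro h3
        apply h2
        ext b
        by_cases hb : b = i0
        · rw [hb, hf0, hi]
        · have h4 := DFunLike.congr_fun h3 b
          rw [Finsupp.erase_ne hb, Finsupp.erase_ne hb] at h4
          exact h4
    rw [Finset.sum_congr rfl h1, Finset.sum_ite_eq']
    split_ifs with h2
    · rfl
    · rw [Finset.mem_filter, not_and] at h2
      by_contra h3
      exact h2 (mem_support_iff.2 (Ne.symm h3)) hi
  rw [hi, ← hR]
  refine coeff_sub (geS v (-(i * θ))) R (fun β => ?_) _
  rw [mem_geS]
  obtain ⟨p, hp, hpc⟩ := h β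
  have h1 : p = ∑ f ∈ P.support, Polynomial.C (coeff f P *
      ∏ b, algebraMap k K (β b) ^ (f.erase i0) b) * Polynomial.X ^ (f i0) := by
    refine Polynomial.funext fun x => ?_
    rw [← hp x]
    conv_lhs => rw [← support_sum_monomial_coeff P]
    rw [map_sum, Polynomial.eval_finsetSum]
    refine Finset.sum_congr rfl fun f _ => ?_
    rw [eval_monomial, Finsupp.prod_fintype _ _ (fun i => pow_zero _), Polynomial.eval_mul,
      Polynomial.eval_C, Polynomial.eval_pow, Polynomial.eval_X, mul_assoc]
    congr 1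
    rw [← Finset.mul_prod_erase Finset.univ _ (Finset.mem_univ i0), Function.update_self,
      ← Finset.mul_prod_erase Finset.univ (fun b => algebraMap k K (β b) ^ (f.erase i0) b)
        (Finset.mem_univ i0), Finsupp.erase_same, pow_zero, one_mul, mul_comm]
    congr 1
    refine Finset.prod_congr rfl fun b hb => ?_
    have hb' := (Finset.mem_erase.1 hb).1
    rw [Function.update_of_ne hb', Finsupp.erase_ne hb']
  have h2 : p.coeff i = eval (fun b => algebraMap k K (β b)) R := by
    rw [h1, Polynomial.finsetSum_coeff]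
    change _ = eval _ (∑ f ∈ P.support with f i0 = i, monomial (f.erase i0) (coeff f P))
    rw [map_sum, Finset.sum_filter]
    refine Finset.sum_congr rfl fun f _ => ?_
    rw [Polynomial.coeff_C_mul, Polynomial.coeff_X_pow]
    by_cases hf : f i0 = i
    · rw [if_pos hf, if_pos hf.symm, mul_one, eval_monomial,
        Finsupp.prod_fintype _ _ (fun i => pow_zero _)]
    · rw [if_neg hf, if_neg (Ne.symm hf), mul_zero]
  rw [← h2]
  exact hpc i

/-- The value of a semi-invariant on a regular frame. -/
theorem semi_valO (hISO : S_ISO) (hDENS : S_DENS) (hess : Algebra.EssFiniteType k K)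
    (htr : Algebra.trdeg k K = n) {δ0 : Place k K → ℝ} (y : Fin n → K)
    (a : Fin n → MvPolynomial (Fin n) K) (ha : ∀ j, (a j).IsHomogeneous m) {v : Place k K}
    (hv : IsDivisorial v n) (hreg : ∀ j, SymOrb n δ0 (sym (k := k) y (a j)))
    {Q : Cf k n m} {W : ℕ} (hQ : SemiInv Q W) (D : Fin n → Derivation k K K)
    (hD : ∀ i, Pres v (D i)) :
    GeR v (-(W * δ0 v)) (aeval (cof m a) Q * (Matrix.of fun i c => D i (y c)).det ^ W) := by
  classical
  obtain ⟨y', F, i0, hy', hF, ht, hyr, hpres⟩ := pFRAME k K n htr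
    (fun y hy => Pool.Agent.W824.PG.fin_adj hess y hy) v hv
  have ht0 := ne_zero_of_ord ht
  have hlog : ∀ b, b ≠ i0 → Lg v (F b) := by
    intro b hb
    refine log_of_pres v _ (hpres b) ht0 ht ?_
    rw [hF, if_neg hb, zero_div]
    exact Or.inl rfl
  have e1 : (Matrix.of fun i c => D i (y c)) =
      (Matrix.of fun i b => D i (y' b)) * Matrix.of fun b c => F b (y c) := by
    ext i c
    rw [Matrix.of_apply, Matrix.mul_apply]
    conv_lhs => rw [← Pool.Agent.W73.PG.PULL.expand y' hy' F hF (D i)]
    rw [Pool.Agent.W721.PG.EFF2.der_sum]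
    rfl
  have h1 := hDENS k K n m W Q hQ (Matrix.of fun b c => F b (y c)) (cof m a)
  have h2 : GeR v (-(W * δ0 v)) (aeval (SD.trans (Matrix.of fun b c => F b (y c)) (cof m a)) Q) := by
    refine hISO k K n m W v i0 (δ0 v) Q hQ _ fun p => ?_
    obtain ⟨j, e⟩ := p
    have h3 : SD.trans (Matrix.of fun b c => F b (y c)) (cof m a) (j, e) =
        coeff e.1 (Pool.Agent.Y174.T.sub (Matrix.of fun b c => F b (y c)) (a j)) := by
      unfold SD.trans
      have h3 : fm (cof m a) j = a j := fm_coeff ha j
      rw [h3]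
      rfl
    rw [h3]
    refine coeff_orb _ i0 (fun β => ?_) e.1
    obtain ⟨p, hp, hpc⟩ := hreg j v hv (F i0)
      (∑ b ∈ Finset.univ.erase i0, algebraMap k K (β b) • F b) (hpres i0) (fun f => by
        rw [Pool.Agent.W73.PG.PULL.sum_app, Finset.sum_div]
        have h4 : Ge v 0 (∑ b ∈ Finset.univ.erase i0, (algebraMap k K (β b) • F b) f / f) := by
          refine Ge.sum _ _ fun b hb => ?_
          rw [Derivation.smul_apply, smul_eq_mul, mul_div_assoc]
          exact reg_mul (reg_const _) (hlog b (Finset.ne_of_mem_erase hb) f)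
        exact h4)
    refine ⟨p, fun x => ?_, fun i => hpc i⟩
    rw [← hp x, T.eval_sub]
    unfold sym
    refine congrArg (fun f => eval f (a j)) (funext fun c => ?_)
    rw [← Finset.add_sum_erase Finset.univ _ (Finset.mem_univ i0), Function.update_self,
      Derivation.add_apply, Derivation.smul_apply, smul_eq_mul,
      Pool.Agent.W73.PG.PULL.sum_app]
    congr 1
    refine Finset.sum_congr rfl fun b hb => ?_
    rw [Function.update_of_ne (Finset.ne_of_mem_erase hb)]
    rfl
  rw [h1] at h2
  have h3 : Ge v 0 (Matrix.of fun i b => D i (y' b)).det :=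
    ge_det v _ fun a b => hD a _ (hyr b)
  rw [e1, Matrix.det_mul, mul_pow]
  have h4 := (Ge.toR (h3.pow W)).mul h2
  have h5 : aeval (cof m a) Q * ((Matrix.of fun i b => D i (y' b)).det ^ W *
      (Matrix.of fun b c => F b (y c)).det ^ W) = (Matrix.of fun i b => D i (y' b)).det ^ W *
        ((Matrix.of fun b c => F b (y c)).det ^ W * aeval (cof m a) Q) := by ring
  rw [h5]
  refine h4.mono (le_of_eq ?_)
  push_cast
  ring

/-- The section given by a semi-invariant. -/
theorem semi_secO (hISO : S_ISO) (hDENS : S_DENS) (hess : Algebra.EssFiniteType k K)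
    (htr : Algebra.trdeg k K = n) {δ0 δ : Place k K → ℝ} (hle : ∀ v, δ0 v ≤ δ v)
    (y : Fin n → K) (a : Fin n → MvPolynomial (Fin n) K) (ha : ∀ j, (a j).IsHomogeneous m)
    (hreg : ∀ j, SymOrb n δ0 (sym (k := k) y (a j)))
    {Q : Cf k n m} {W : ℕ} (hQ : SemiInv Q W) :
    PairSec k K n δ {1} W 0
      (fun D => aeval (cof m a) Q * (Matrix.of fun i c => D i (y c)).det ^ W) := by
  classical
  refine ⟨?_, fun v hv D hD => ?_⟩
  · intro X D
    change aeval (cof m a) Q * (Matrix.of fun i c => (∑ j, X i j • D j) (y c)).det ^ W =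
      X.det ^ W * (aeval (cof m a) Q * (Matrix.of fun i c => D i (y c)).det ^ W)
    have e : (Matrix.of fun i c => (∑ j, X i j • D j) (y c)) =
        X * Matrix.of fun i c => D i (y c) := by
      ext i c
      rw [Matrix.of_apply, Matrix.mul_apply, Pool.Agent.W721.PG.EFF2.der_sum]
      rfl
    rw [e, Matrix.det_mul, mul_pow]
    ring
  · rcases semi_valO hISO hDENS hess htr y a ha hv hreg hQ D hD with h2 | h2
    · exact Or.inl h2
    · right
      refine ⟨1, by simp, one_ne_zero, ?_⟩
      have h3 : (W : ℝ) * δ0 v ≤ W * δ v := mul_le_mul_of_nonneg_left (hle v) (Nat.cast_nonneg W)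
      simp only [Nat.cast_zero, zero_mul, zero_sub]
      linarith

/-- The ratios of semi-invariants are constants if `κ ≤ 0`. -/
theorem ratio_O (hISO : S_ISO) (hDENS : S_DENS) [IsAlgClosed k] (hess : Algebra.EssFiniteType k K)
    (htr : Algebra.trdeg k K = n) (hm : 1 ≤ m) {δ0 δ : Place k K → ℝ}
    (hle : ∀ v, δ0 v ≤ δ v) (hκ : ¬ PairKod k K n δ 1)
    (y : Fin n → K) (hy : IsTranscendenceBasis k y)
    (a : Fin n → MvPolynomial (Fin n) K) (ha : ∀ j, (a j).IsHomogeneous m)
    (hreg : ∀ j, SymOrb n δ0 (sym (k := k) y (a j))) : Ratio k m a := by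
  classical
  intro W Q1 Q2 h1 h2 h20
  rcases Nat.eq_zero_or_pos W with hW | hW
  · subst hW
    obtain ⟨c1, rfl⟩ := semi_zero hm h1
    obtain ⟨c2, rfl⟩ := semi_zero hm h2
    rw [aeval_C] at h20 ⊢
    rw [aeval_C]
    refine ⟨c1 / c2, ?_⟩
    rw [map_div₀, div_mul_cancel₀ _ h20]
  obtain ⟨E, hE⟩ := Pool.Agent.W636.PG.exists_duals k K n y hy
  have hdetE : (Matrix.of fun i c => E i (y c)).det = 1 := by
    have h1 : (Matrix.of fun i c => E i (y c)) = 1 := by
      ext a b
      rw [Matrix.of_apply, Matrix.one_apply]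
      exact hE a b
    rw [h1, Matrix.det_one]
  by_contra hcon
  have hcon2 : ¬ ∃ c : k, algebraMap k K c = aeval (cof m a) Q1 / aeval (cof m a) Q2 := by
    rintro ⟨c, hc⟩
    exact hcon ⟨c, by rw [hc, div_mul_cancel₀ _ h20]⟩
  have htrx : Transcendental k (aeval (cof m a) Q1 / aeval (cof m a) Q2) := by
    intro halg
    apply hcon2
    have h1 : IsIntegral k (aeval (cof m a) Q1 / aeval (cof m a) Q2) := halg.isIntegral
    have h2 := IsAlgClosed.degree_eq_one_of_irreducible k (minpoly.irreducible h1)
    exact minpoly.mem_range_of_degree_eq_one k _ h2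
  have h10 : aeval (cof m a) Q1 ≠ 0 := by
    intro h0
    apply htrx
    rw [h0, zero_div]
    exact isAlgebraic_zero
  apply hκ
  refine ⟨W, hW, fun l D => (if l = 0 then aeval (cof m a) Q2 else aeval (cof m a) Q1) *
      (Matrix.of fun i c => D i (y c)).det ^ W, fun l => ?_, E, fun l => ?_, ?_⟩
  · by_cases hl : l = 0
    · simp only [hl, if_true]
      exact semi_secO hISO hDENS hess htr hle y a ha hreg h2
    · simp only [hl, if_false]
      exact semi_secO hISO hDENS hess htr hle y a ha hreg h1
  · change (if l = 0 then aeval (cof m a) Q2 else aeval (cof m a) Q1) *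
        (Matrix.of fun i c => E i (y c)).det ^ W ≠ 0
    rw [hdetE, one_pow, mul_one]
    split_ifs
    · exact h20
    · exact h10
  · have h3 : (fun l : Fin 1 => (if l.succ = 0 then aeval (cof m a) Q2 else aeval (cof m a) Q1) *
          (Matrix.of fun i c => E i (y c)).det ^ W / ((if (0 : Fin 2) = 0 then aeval (cof m a) Q2
            else aeval (cof m a) Q1) * (Matrix.of fun i c => E i (y c)).det ^ W)) =
            fun _ => aeval (cof m a) Q1 / aeval (cof m a) Q2 := by
        funext l
        rw [hdetE, one_pow, mul_one, mul_one, if_pos rfl, if_neg (Fin.succ_ne_zero l)]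
    change AlgebraicIndependent k (fun l : Fin 1 => (if l.succ = 0 then aeval (cof m a) Q2 else
        aeval (cof m a) Q1) * (Matrix.of fun i c => E i (y c)).det ^ W / ((if (0 : Fin 2) = 0 then
          aeval (cof m a) Q2 else aeval (cof m a) Q1) *
            (Matrix.of fun i c => E i (y c)).det ^ W))
    rw [h3]
    exact algebraicIndependent_unique_type_iff.2 htrx

end

end Pool.Agent.Y174.OB
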