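import Pool.Agent.Y174.OB.O6

/-! Orbifold symmetric differentials: pairs of any Kodaira dimension. -/

set_option autoImplicit false
set_option linter.overlappingInstances false
set_option linter.unusedSectionVars false
set_option maxHeartbeats 400000

open FF IntermediateField Pool.Agent.W619.PQ Pool.Agent.W619.TW Pool.Agent.W619.Y

namespace Pool.Agent.Y174.OB

section

variable {k L K Λ F : Type} [Field k] [CharZero k] [Field L] [Field K] [Field Λ]
  [Field F] [Algebra k L] [Algebra k K] [Algebra L K] [IsScalarTower k L K] [Algebra L Λ]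
  [Algebra Λ F] [Algebra K F] [Algebra L F] [IsScalarTower L Λ F] [IsScalarTower L K F]
  [Algebra k Λ] [Algebra k F] [IsScalarTower k Λ F] [IsScalarTower k K F]
  [IsScalarTower k L Λ]

/-- **Main theorem**. -/
theorem main_ob (hISO : S_ISO) (hVAL : S_VAL) (hPIG : S_PIG) (hEASY : S_EASY)
    [IsAlgClosed Λ] (hessL : Algebra.EssFiniteType k L)
    (hess : Algebra.EssFiniteType k K) [Algebra.IsAlgebraic L Λ] {d r m : ℕ}
    (hL : Algebra.trdeg k L = d) (hn : Algebra.trdeg k K = (d + (r + 1) : ℕ))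
    (hcl : ∀ x : K, IsAlgebraic L x → x ∈ Set.range (algebraMap L K))
    (hgenF : IntermediateField.adjoin Λ (Set.range (algebraMap K F)) = ⊤)
    (hm : 1 ≤ m) {δ : Place k K → ℝ} {G : Finset K}
    (hG : ∀ v : Place k K, IsDivisorial v (d + (r + 1)) → ∃ g ∈ G, g ≠ 0 ∧ δ v ≤ (v.ord g : ℝ))
    {δF δ0 : Place Λ F → ℝ} (hδF : IsPullFib δ δF) (hO : IsOrb δ0) (hle : ∀ w, δ0 w ≤ δF w)
    (hκ : ¬ PairKod Λ F (r + 1) δF 1) (h : NoZeroOrb Λ F (r + 1) m δ0) :
    ∃ M : IntermediateField F (AlgebraicClosure F), FiniteDimensional F M ∧ IsGalois F M ∧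
      (∃ (ω : Fin (r + 1) → (Derivation Λ F F →ₗ[F] M)), LinearIndependent M ω ∧
        ∀ i, OrbForm (r + 1) δ0 (ω i)) ∧
      (∃ (η : Fin (r + 1) → (Derivation Λ M M →ₗ[M] M)), LinearIndependent M η ∧
        ∀ i, ∀ w : Place Λ M, IsDivisorial w (r + 1) → ∀ D : Derivation Λ M M,
          LogFld (BdOn fun v => δ0 v = 1) w D → w.Reg (η i D)) ∧
      PairKod Λ F (r + 1) δF 0 ∧ ∀ δ' : Place Λ M → ℝ, IsPull δF δ' →
        (∀ a, PairKod Λ F (r + 1) δF a ↔ PairKod Λ M (r + 1) δ' a) ∧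
        ∀ h, PairNum Λ M (r + 1) δ' h →
          PairNum Λ F (r + 1) δF h ∧ PairNum k K (d + (r + 1)) δ (d + h) := by
  have hL0 : CharZero L := charZero_of_injective_algebraMap (algebraMap k L).injective
  have hΛ0 : CharZero Λ := charZero_of_injective_algebraMap (algebraMap k Λ).injective
  have hessF := ess_F (F := F) hess hgenF
  have htr := trdeg_F (trdeg_LK (L := L) hL hn) hgenF
  obtain ⟨M, h1, h2, h3, h4, h4', h5⟩ := main1O hISO hVAL hPIG hessF htr hm hO hle hκ h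
  exact ⟨M, h1, h2, h3, h4, h4', fun δ' hδ' => ⟨(h5 δ' hδ').1, fun h hh =>
    ⟨(h5 δ' hδ').2 h hh, hEASY k L K Λ F hessL hess hgenF (fun x hx => hcl x hx.isAlgebraic) d r
      hL hn h δ δF hδF G hG ((h5 δ' hδ').2 h hh)⟩⟩⟩

end

end Pool.Agent.Y174.OB
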