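import Pool.Agent.Y174.OB.O6

/-! Orbifold symmetric differentials: restriction to the geometric generic fibre. -/

set_option autoImplicit false
set_option linter.overlappingInstances false
set_option linter.unusedSectionVars false
set_option maxHeartbeats 400000

open FF MvPolynomial Pool.Agent.W619.PQ Pool.Agent.W619.PL Pool.Agent.W619.TW
  Pool.Agent.W603.LV Pool.Agent.W619.Y Pool.Agent.W824.PG Pool.Agent.Y174.T Pool.Agent.Y174.SD

namespace Pool.Agent.Y174.OB

section

variable {k K : Type} [Field k] [CharZero k] [Field K] [Algebra k K]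

/-- The coefficient of `x ^ i` has order at least `c - i θ`. -/
def GeP (w : Place k K) (c θ : ℝ) (q : Polynomial K) : Prop :=
  ∀ i : ℕ, GeR w (c - i * θ) (q.coeff i)

theorem GeP.mul {w : Place k K} {c c' θ : ℝ} {p q : Polynomial K} (h : GeP w c θ p)
    (h' : GeP w c' θ q) : GeP w (c + c') θ (p * q) := by
  intro i
  rw [Polynomial.coeff_mul]
  refine GeR.sum _ _ _ fun x hx => ?_
  refine ((h x.1).mul (h' x.2)).mono (le_of_eq ?_)
  rw [← Finset.HasAntidiagonal.mem_antidiagonal.1 hx]
  push_cast
  ring

theorem GeP.one {w : Place k K} {θ : ℝ} : GeP w 0 θ 1 := by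
  intro i
  rw [Polynomial.coeff_one]
  split_ifs with h
  · right
    rw [w.ord_one, h]
    simp
  · exact Or.inl rfl

theorem GeP.pow {w : Place k K} {c θ : ℝ} {p : Polynomial K} (h : GeP w c θ p)
    (m : ℕ) : GeP w (m * c) θ (p ^ m) := by
  induction m with
  | zero => simpa using GeP.one
  | succ m ih =>
    rw [pow_succ]
    have h1 := ih.mul h
    have h2 : ((m + 1 : ℕ) : ℝ) * c = m * c + c := by push_cast; ring
    rw [h2]
    exact h1

theorem GeP.prod {w : Place k K} {θ : ℝ} {ι : Type*} (s : Finset ι) (c : ι → ℝ)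
    (f : ι → Polynomial K) (h : ∀ i ∈ s, GeP w (c i) θ (f i)) :
    GeP w (∑ i ∈ s, c i) θ (∏ i ∈ s, f i) := by
  classical
  induction s using Finset.induction_on with
  | empty => simpa using GeP.one
  | insert a s ha ih =>
    rw [Finset.prod_insert ha, Finset.sum_insert ha]
    exact (h a (Finset.mem_insert_self _ _)).mul (ih fun i hi => h i (Finset.mem_insert_of_mem hi))

theorem GeP.sum {w : Place k K} {c θ : ℝ} {ι : Type*} (s : Finset ι)
    (f : ι → Polynomial K) (h : ∀ i ∈ s, GeP w c θ (f i)) : GeP w c θ (∑ i ∈ s, f i) := by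
  intro i
  rw [Polynomial.finsetSum_coeff]
  exact GeR.sum _ _ _ fun j hj => h j hj i

theorem GeP.C {w : Place k K} {c θ : ℝ} {x : K} (h : GeR w c x) :
    GeP w c θ (Polynomial.C x) := by
  intro i
  rw [Polynomial.coeff_C]
  split_ifs with hi
  · rw [hi]
    simpa using h
  · exact Or.inl rfl

theorem GeP.mono {w : Place k K} {c c' θ : ℝ} {q : Polynomial K} (h : GeP w c θ q)
    (hc : c' ≤ c) : GeP w c' θ q := fun i => (h i).mono (by linarith)

/-- `a + x b` -/
theorem GeP.lin {w : Place k K} {c θ : ℝ} {a b : K} (ha : GeR w c a) (hb : GeR w (c - θ) b) :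
    GeP w c θ (Polynomial.C a + Polynomial.X * Polynomial.C b) := by
  intro i
  rcases i with _ | _ | i
  · have h1 : (Polynomial.C a + Polynomial.X * Polynomial.C b).coeff 0 = a := by
      rw [Polynomial.coeff_add, Polynomial.coeff_C_zero, Polynomial.coeff_zero_eq_eval_zero]
      simp
    rw [h1]
    simpa using ha
  · have h1 : (Polynomial.C a + Polynomial.X * Polynomial.C b).coeff (0 + 1) = b := by
      rw [Polynomial.coeff_add, Polynomial.coeff_X_mul, Polynomial.coeff_C_zero,
        Polynomial.coeff_C_succ, zero_add]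
    rw [h1]
    simpa using hb
  · have h1 : (Polynomial.C a + Polynomial.X * Polynomial.C b).coeff (i + 1 + 1) = 0 := by
      rw [Polynomial.coeff_add, Polynomial.coeff_X_mul, Polynomial.coeff_C_succ,
        Polynomial.coeff_C_succ, zero_add]
    exact Or.inl h1

end

section

variable {k : Type} {L K Λ F : Type} [Field k] [CharZero k] [Field L] [Field K] [Field Λ]
  [Field F] [Algebra k L] [Algebra k K] [Algebra L K] [IsScalarTower k L K] [Algebra L Λ]
  [Algebra Λ F] [Algebra K F] [Algebra L F] [IsScalarTower L Λ F] [IsScalarTower L K F]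
  [Algebra k Λ] [Algebra k F] [IsScalarTower k Λ F] [IsScalarTower k K F]
  [IsScalarTower k L Λ]

/-- The coefficients in a frame, from the definition. -/
theorem coeff_frame {n : ℕ} {δ0 : Place k K → ℝ} (y : Fin n → K)
    {P : MvPolynomial (Fin n) K} {v : Place k K}
    (hv : IsDivisorial v n) (hreg : SymOrb n δ0 (sym (k := k) y P))
    (E : Fin n → Derivation k K K) (i0 : Fin n) (hpres : ∀ i, Pres v (E i))
    (hlog : ∀ b, b ≠ i0 → Lg v (E b)) (e : Fin n →₀ ℕ) :
    GeR v (-(e i0 * δ0 v))
      (coeff e (Pool.Agent.Y174.T.sub (Matrix.of fun b c => E b (y c)) P)) := by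
  classical
  refine coeff_orb _ i0 (fun β => ?_) e
  obtain ⟨p, hp, hpc⟩ := hreg v hv (E i0)
    (∑ b ∈ Finset.univ.erase i0, algebraMap k K (β b) • E b) (hpres i0) (fun f => by
      rw [Pool.Agent.W73.PG.PULL.sum_app, Finset.sum_div]
      have h4 : Ge v 0 (∑ b ∈ Finset.univ.erase i0, (algebraMap k K (β b) • E b) f / f) := by
        refine Ge.sum _ _ fun b hb => ?_
        rw [Derivation.smul_apply, smul_eq_mul, mul_div_assoc]
        exact reg_mul (reg_const _) (hlog b (Finset.ne_of_mem_erase hb) f)
      exact h4)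
  refine ⟨p, fun x => ?_, fun i => hpc i⟩
  rw [← hp x, T.eval_sub]
  unfold sym
  refine congrArg (fun f => eval f P) (funext fun c => ?_)
  rw [← Finset.add_sum_erase Finset.univ _ (Finset.mem_univ i0), Function.update_self,
    Derivation.add_apply, Derivation.smul_apply, smul_eq_mul,
    Pool.Agent.W73.PG.PULL.sum_app]
  congr 1
  refine Finset.sum_congr rfl fun b hb => ?_
  rw [Function.update_of_ne (Finset.ne_of_mem_erase hb)]
  rfl

/-- Restrictions of orbifold symmetric differentials are orbifold symmetric differentials. -/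
theorem symOrb_res (hess : Algebra.EssFiniteType k K) [Algebra.IsAlgebraic K F] {d r : ℕ}
    (hn : Algebra.trdeg k K = (d + (r + 1) : ℕ)) {t : Fin d → L}
    (ht : AlgebraicIndependent k t) {δ0 : Place k K → ℝ} {δF : Place Λ F → ℝ}
    (hδ : IsPullFib δ0 δF) (h1 : ∀ v, δ0 v ≤ 1) (y : Fin (d + (r + 1)) → K)
    (J : MvPolynomial (Fin (d + (r + 1))) K)
    (hJ : SymOrb (d + (r + 1)) δ0 (sym (k := k) y J))
    (w : Place Λ F) (hw : IsDivisorial w (r + 1)) (D' E' : Derivation Λ F F)
    (hD' : ∀ f, w.Reg f → w.Reg (D' f)) (hE' : ∀ f, w.Reg (E' f / f)) :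
    ∃ p : Polynomial F, (∀ x : F, eval₂ (algebraMap K F)
      (fun c => (x • D' + E') (algebraMap K F (y c))) J = p.eval x) ∧
        ∀ i : ℕ, GeR w (-(i * δF w)) (p.coeff i) := by
  classical
  have hL0 : CharZero L := charZero_of_injective_algebraMap (algebraMap k L).injective
  have hK0 : CharZero K := charZero_of_injective_algebraMap (algebraMap k K).injective
  have hF0 : CharZero F := charZero_of_injective_algebraMap (algebraMap K F).injective
  obtain ⟨v, e, hwv, hv⟩ := exists_under (L := L) (K := K) w hw
  obtain ⟨hdiv, z, E, hs, hzr, hbas, hE, hP⟩ := exists_frame_fib hess hn ht hv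
  let yv : Fin (d + (r + 1)) → K := Fin.append (algebraMap L K ∘ t) z
  let i0 : Fin (d + (r + 1)) := Fin.natAdd d 0
  have hyi0 : (resPl k v).ord (yv i0) = 1 := by
    change v.ord (Fin.append (algebraMap L K ∘ t) z (Fin.natAdd d 0)) = 1
    rw [Fin.append_right]
    exact hs
  have hyr : ∀ i, (resPl k v).Reg (yv i) := by
    intro i
    change v.Reg (Fin.append (algebraMap L K ∘ t) z i)
    refine Fin.addCases (fun c => ?_) (fun j => ?_) i
    · rw [Fin.append_left]
      exact reg_const _
    · rw [Fin.append_right]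
      exact hzr j
  have ht0 := ne_zero_of_ord hyi0
  have ht0' : algebraMap K F (yv i0) ≠ 0 := by simpa using ht0
  have hlies : LiesOn (resPl k w) (resPl k v) e := hwv
  have hover : Over (resPl k w) (resPl k v) e := hwv
  have he0 : (0 : ℝ) < e := by exact_mod_cast hwv.1
  have hlog : ∀ b, b ≠ i0 → Lg (resPl k v) (E b) := by
    intro b hb
    refine log_of_pres (resPl k v) _ (hP b) ht0 hyi0 ?_
    rw [hE, if_neg hb, zero_div]
    exact Or.inl rfl
  let D2 : Derivation k F F := D'.restrictScalars k
  let E2 : Derivation k F F := E'.restrictScalars k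
  have hD2 : Pres (resPl k w) D2 := hD'
  have hE2 : Lg (resPl k w) E2 := hE'
  have hE2p : Pres (resPl k w) E2 := Lg.pres hE2
  set θ : ℝ := δF w with hθ
  have hθe : θ = max 0 (1 - e * (1 - δ0 (resPl k v))) := hδ (resPl k v) w e hwv
  have hθ0 : 0 ≤ θ := by rw [hθe]; exact le_max_left _ _
  have hθ1 : 1 - e * (1 - δ0 (resPl k v)) ≤ θ := by rw [hθe]; exact le_max_right _ _
  let A : Matrix (Fin (d + (r + 1))) (Fin (d + (r + 1))) K := Matrix.of fun c b => E c (y b)
  -- the expansion in the frame
  have hval : ∀ (X : Derivation k F F) b, X (algebraMap K F (y b)) =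
      ∑ c, X (algebraMap K F (yv c)) * algebraMap K F (A c b) := fun X b =>
    Pool.Agent.W73.PG.PULL.chain yv hbas E hE X (y b)
  let P : MvPolynomial (Fin (d + (r + 1))) K := Pool.Agent.Y174.T.sub A J
  let q : Polynomial F := ∑ f ∈ P.support, Polynomial.C (algebraMap K F (coeff f P)) *
    ∏ c, (Polynomial.C (E2 (algebraMap K F (yv c))) +
      Polynomial.X * Polynomial.C (D2 (algebraMap K F (yv c)))) ^ f c
  refine ⟨q, fun x => ?_, ?_⟩
  · have h2 : eval₂ (algebraMap K F) (fun c => (x • D' + E') (algebraMap K F (y c))) J =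
        eval₂ (algebraMap K F) (fun c => (x • D2 + E2) (algebraMap K F (yv c))) P := by
      rw [eval₂_sub]
      congr 1
      funext b
      exact hval (x • D2 + E2) b
    rw [h2, eval₂_eq', Polynomial.eval_finsetSum]
    refine Finset.sum_congr rfl fun f _ => ?_
    rw [Polynomial.eval_mul, Polynomial.eval_C, Polynomial.eval_prod]
    congr 1
    refine Finset.prod_congr rfl fun c _ => ?_
    rw [Polynomial.eval_pow, Polynomial.eval_add, Polynomial.eval_C, Polynomial.eval_mul,
      Polynomial.eval_X, Polynomial.eval_C, Derivation.add_apply, Derivation.smul_apply,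
      smul_eq_mul, add_comm]
  · have key : GeP (resPl k w) 0 θ q := by
      refine GeP.sum _ _ fun f _ => ?_
      have h2 := (coeff_frame y hdiv hJ E i0 hP hlog f).up hover
      have h3 : GeP (resPl k w) (∑ c, (f c : ℝ) * (if c = i0 then e * δ0 (resPl k v) else 0)) θ
          (∏ c, (Polynomial.C (E2 (algebraMap K F (yv c))) +
            Polynomial.X * Polynomial.C (D2 (algebraMap K F (yv c)))) ^ f c) := by
        refine GeP.prod _ _ _ fun c _ => GeP.pow ?_ _
        by_cases hc : c = i0
        · rw [if_pos hc, hc]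
          refine GeP.lin ?_ ?_
          · have h4 : Ge (resPl k w) 0 (E2 (algebraMap K F (yv i0)) / algebraMap K F (yv i0)) :=
              hE2 _
            have h5 : Ge (resPl k w) ((resPl k w).ord (algebraMap K F (yv i0)))
                (algebraMap K F (yv i0)) := Or.inr le_rfl
            have h6 := h4.mul h5
            rw [div_mul_cancel₀ _ ht0', hover.2, hyi0] at h6
            refine (Ge.toR h6).mono ?_
            push_cast
            nlinarith [h1 (resPl k v)]
          · have h4 := Ge.toR (ge_der hD2 ht0')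
            rw [hover.2, hyi0] at h4
            refine h4.mono ?_
            push_cast
            nlinarith [h1 (resPl k v)]
        · rw [if_neg hc]
          refine GeP.lin ?_ ?_
          · have h4 : Ge (resPl k w) 0 (E2 (algebraMap K F (yv c))) :=
              hE2p _ (hover.reg.2 (hyr c))
            simpa using Ge.toR h4
          · have h4 : Ge (resPl k w) 0 (D2 (algebraMap K F (yv c))) :=
              hD2 _ (hover.reg.2 (hyr c))
            refine (Ge.toR h4).mono ?_
            push_cast
            linarith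
      refine ((GeP.C h2).mul h3).mono (le_of_eq ?_)
      rw [Finset.sum_eq_single i0 (fun c _ hc => by rw [if_neg hc, mul_zero])
        (fun h => absurd (Finset.mem_univ i0) h), if_pos rfl]
      ring
    intro i
    have h2 := key i
    rw [zero_sub] at h2
    exact h2

end

end Pool.Agent.Y174.OB
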